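import Mathlib
import Pool.Agent.W231.V.Ht
import Pool.Agent.Y733.VR.Ht

set_option autoImplicit false

/-!
Almost coprime representations of the elements of a number field.
-/

namespace Pool.Agent.H10VJ

open NumberField IsDedekindDomain Height Module

variable {K : Type} [Field K] [NumberField K]

omit [NumberField K] in
lemma iSup_fin_two_max (w : InfinitePlace K) (a b : K) :
    (⨆ i, w (![a, b] i)) = max (w a) (w b) := by
  apply le_antisymm
  · refine ciSup_le fun i => ?_
    fin_cases i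
    · exact le_max_left _ _
    · exact le_max_right _ _
  · refine max_le ?_ ?_
    · exact le_ciSup (f := fun i => w (![a, b] i)) (Set.finite_range _).bddAbove 0
    · exact le_ciSup (f := fun i => w (![a, b] i)) (Set.finite_range _).bddAbove 1

/-- every element is a quotient of two integers which generate an ideal containing `c` -/
lemma exists_rep (K : Type) [Field K] [NumberField K] : ∃ c : ℕ, c ≠ 0 ∧ ∀ s : K, ∃ A B : 𝓞 K,
    B ≠ 0 ∧ s = (A : K) / (B : K) ∧ (c : 𝓞 K) ∈ Ideal.span {A, B} := by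
  classical
  have hJ : ∀ C : ClassGroup (𝓞 K), ∃ J : nonZeroDivisors (Ideal (𝓞 K)),
      ClassGroup.mk0 J = C := fun C => ClassGroup.mk0_surjective C
  choose J hJ using hJ
  refine ⟨∏ C, Ideal.absNorm (J C : Ideal (𝓞 K)), ?_, ?_⟩
  · refine Finset.prod_ne_zero_iff.2 fun C _ h => ?_
    rw [Ideal.absNorm_eq_zero_iff] at h
    exact nonZeroDivisors.ne_zero (J C).2 h
  · intro s
    obtain ⟨A₁, B₁, hB₁, hs⟩ := IsFractionRing.div_surjective (A := 𝓞 K) s
    have hB₁0 : B₁ ≠ 0 := nonZeroDivisors.ne_zero hB₁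
    have hI0 : Ideal.span {A₁, B₁} ≠ (⊥ : Ideal (𝓞 K)) := by
      intro h
      have h1 : B₁ ∈ (⊥ : Ideal (𝓞 K)) := by
        rw [← h]; exact Ideal.subset_span (by simp)
      exact hB₁0 (by simpa using h1)
    set I : nonZeroDivisors (Ideal (𝓞 K)) := ⟨Ideal.span {A₁, B₁}, mem_nonZeroDivisors_of_ne_zero hI0⟩
      with hI
    have h1 : ClassGroup.mk0 I = ClassGroup.mk0 (J (ClassGroup.mk0 I)) := (hJ _).symm
    obtain ⟨x, y, hx, hy, hxy⟩ := ClassGroup.mk0_eq_mk0_iff.1 h1
    have hmem : ∀ z ∈ Ideal.span {A₁, B₁}, ∃ w ∈ (J (ClassGroup.mk0 I) : Ideal (𝓞 K)),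
        x * z = y * w := by
      intro z hz
      have h2 : x * z ∈ Ideal.span {x} * (I : Ideal (𝓞 K)) :=
        Ideal.mul_mem_mul (Ideal.mem_span_singleton_self x) hz
      rw [hxy, Ideal.mem_span_singleton_mul] at h2
      obtain ⟨w, hw, hw2⟩ := h2
      exact ⟨w, hw, hw2.symm⟩
    obtain ⟨A₀, hA₀, hxA⟩ := hmem A₁ (Ideal.subset_span (by simp))
    obtain ⟨B₀, hB₀, hxB⟩ := hmem B₁ (Ideal.subset_span (by simp))
    have hB₀0 : B₀ ≠ 0 := by
      rintro rfl
      rw [mul_zero] at hxB
      rcases mul_eq_zero.1 hxB with h | h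
      · exact hx h
      · exact hB₁0 h
    refine ⟨A₀, B₀, hB₀0, ?_, ?_⟩
    · rw [← hs]
      have e1 : (algebraMap (𝓞 K) K x) * (algebraMap (𝓞 K) K A₁) =
          (algebraMap (𝓞 K) K y) * (algebraMap (𝓞 K) K A₀) := by
        rw [← map_mul, ← map_mul, hxA]
      have e2 : (algebraMap (𝓞 K) K x) * (algebraMap (𝓞 K) K B₁) =
          (algebraMap (𝓞 K) K y) * (algebraMap (𝓞 K) K B₀) := by
        rw [← map_mul, ← map_mul, hxB]
      have hx' : algebraMap (𝓞 K) K x ≠ 0 := by
        rwa [Ne, FaithfulSMul.algebraMap_eq_zero_iff]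
      have hy' : algebraMap (𝓞 K) K y ≠ 0 := by
        rwa [Ne, FaithfulSMul.algebraMap_eq_zero_iff]
      have hB' : algebraMap (𝓞 K) K B₁ ≠ 0 := by
        rwa [Ne, FaithfulSMul.algebraMap_eq_zero_iff]
      have hB0' : algebraMap (𝓞 K) K B₀ ≠ 0 := by
        rwa [Ne, FaithfulSMul.algebraMap_eq_zero_iff]
      rw [div_eq_div_iff hB' hB0']
      apply mul_left_cancel₀ (mul_ne_zero hx' hy')
      calc _ = (algebraMap (𝓞 K) K x * algebraMap (𝓞 K) K A₁) *
            (algebraMap (𝓞 K) K y * algebraMap (𝓞 K) K B₀) := by ring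
        _ = (algebraMap (𝓞 K) K y * algebraMap (𝓞 K) K A₀) *
            (algebraMap (𝓞 K) K x * algebraMap (𝓞 K) K B₁) := by rw [e1, e2]
        _ = _ := by ring
    · have hspan : Ideal.span {A₀, B₀} = (J (ClassGroup.mk0 I) : Ideal (𝓞 K)) := by
        have h3 : Ideal.span {y} * Ideal.span {A₀, B₀} =
            Ideal.span {y} * (J (ClassGroup.mk0 I) : Ideal (𝓞 K)) := by
          rw [← hxy]
          have e1 : Ideal.span {y} * Ideal.span {A₀, B₀} = Ideal.span {y * A₀, y * B₀} := by
            rw [Ideal.span_mul_span', Set.singleton_mul, Set.image_pair]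
          have e2 : Ideal.span {x} * Ideal.span {A₁, B₁} = Ideal.span {x * A₁, x * B₁} := by
            rw [Ideal.span_mul_span', Set.singleton_mul, Set.image_pair]
          rw [e1]
          change _ = Ideal.span {x} * Ideal.span {A₁, B₁}
          rw [e2, hxA, hxB]
        exact Ideal.span_singleton_mul_right_injective hy h3
      rw [hspan]
      rw [Nat.cast_prod]
      exact Ideal.mem_of_dvd _ (Finset.dvd_prod_of_mem
        (fun C => ((Ideal.absNorm (J C : Ideal (𝓞 K)) : ℕ) : 𝓞 K)) (Finset.mem_univ _))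
        (Ideal.absNorm_mem _)

/-- the archimedean part of the height of an almost coprime pair -/
lemma arch_le {A B : 𝓞 K} (hB : B ≠ 0) {c : ℕ} (hc : c ≠ 0)
    (hcm : (c : 𝓞 K) ∈ Ideal.span {A, B}) :
    ∑ w : InfinitePlace K, (w.mult : ℝ) * Real.log (max (w (A : K)) (w (B : K))) ≤
      logHeight₁ ((A : K) / B) + finrank ℚ K * Real.log c := by
  have hB' : (B : K) ≠ 0 := by
    rwa [Ne, RingOfIntegers.coe_eq_zero_iff]
  have hx : (![A, B] : Fin 2 → 𝓞 K) ≠ 0 := fun h => hB (by simpa using congrFun h 1)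
  have hx' : (![(A : K), (B : K)] : Fin 2 → K) ≠ 0 := fun h => hB' (by simpa using congrFun h 1)
  have h1 : logHeight₁ ((A : K) / B) = logHeight ![(A : K), (B : K)] := by
    rw [logHeight₁_eq_logHeight]
    have e : ![(A : K), (B : K)] = (B : K) • ![(A : K) / B, 1] := by
      funext i
      fin_cases i
      · simp [mul_div_cancel₀ _ hB']
      · simp
    rw [e, logHeight_smul_eq_logHeight _ hB']
  have hN := absNorm_mul_finprod_finitePlace_eq_one hx
  have hrange : Set.range (![A, B] : Fin 2 → 𝓞 K) = {A, B} := by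
    simp only [Matrix.range_cons, Matrix.range_empty, Set.union_empty]
    rfl
  rw [hrange] at hN
  have hcoe : ∀ v : FinitePlace K, (⨆ i, v ((![A, B] : Fin 2 → 𝓞 K) i : K)) =
      ⨆ i, v (![(A : K), (B : K)] i) := by
    intro v
    congr 1
    funext i
    fin_cases i <;> rfl
  simp_rw [hcoe] at hN
  have hNle : (Ideal.absNorm (Ideal.span {A, B}) : ℝ) ≤ (c : ℝ) ^ finrank ℚ K := by
    have h2 : Ideal.absNorm (Ideal.span {A, B}) ∣ Ideal.absNorm (Ideal.span {(c : 𝓞 K)}) :=
      Ideal.absNorm_dvd_absNorm_of_le ((Ideal.span_singleton_le_iff_mem _).2 hcm)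
    have h3 : Ideal.absNorm (Ideal.span {(c : 𝓞 K)}) = c ^ finrank ℚ K := by
      rw [Ideal.absNorm_span_singleton]
      have : (Algebra.norm ℤ (c : 𝓞 K)) = (c : ℤ) ^ finrank ℚ K := by
        have h4 := Algebra.norm_algebraMap (R := ℤ) (S := 𝓞 K) (c : ℤ)
        rw [map_natCast] at h4
        rw [h4, RingOfIntegers.rank]
      rw [this, Int.natAbs_pow, Int.natAbs_natCast]
    rw [h3] at h2
    exact_mod_cast Nat.le_of_dvd (pow_pos (Nat.pos_of_ne_zero hc) _) h2
  set F : ℝ := ∏ᶠ v : FinitePlace K, ⨆ i, v (![(A : K), (B : K)] i) with hF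
  have hNpos : (0 : ℝ) < (Ideal.absNorm (Ideal.span {A, B}) : ℝ) := by
    rcases (Nat.cast_nonneg (α := ℝ) (Ideal.absNorm (Ideal.span {A, B}))).lt_or_eq with h | h
    · exact h
    · rw [← h, zero_mul] at hN
      exact absurd hN zero_ne_one
  have hFval : F = (Ideal.absNorm (Ideal.span {A, B}) : ℝ)⁻¹ := by
    field_simp
    linarith
  have hlog : logHeight ![(A : K), (B : K)] =
      ∑ w : InfinitePlace K, (w.mult : ℝ) * Real.log (max (w (A : K)) (w (B : K))) + Real.log F := by
    rw [logHeight_eq_log_mulHeight, NumberField.mulHeight_eq hx', Real.log_mul, Real.log_prod]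
    · congr 1
      refine Finset.sum_congr rfl fun w _ => ?_
      rw [Real.log_pow]
      congr 2
      rw [iSup_fin_two_max]
    · intro w _
      apply pow_ne_zero
      rw [iSup_fin_two_max]
      exact (lt_max_of_lt_right (w.pos_iff.2 hB')).ne'
    · refine Finset.prod_ne_zero_iff.2 fun w _ => ?_
      apply pow_ne_zero
      rw [iSup_fin_two_max]
      exact (lt_max_of_lt_right (w.pos_iff.2 hB')).ne'
    · rw [← hF, hFval]
      exact inv_ne_zero hNpos.ne'
  rw [h1, hlog, hFval, Real.log_inv]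
  have hlogN : Real.log (Ideal.absNorm (Ideal.span {A, B}) : ℝ) ≤ finrank ℚ K * Real.log c := by
    rw [← Real.log_pow]
    exact Real.log_le_log hNpos hNle
  linarith

end Pool.Agent.H10VJ
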