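import Mathlib
import Pool.Agent.H10VJ.Rep
import Pool.Agent.Y733.VR.Ext

set_option autoImplicit false

/-!
The discriminant of the field generated by the square root of the value of a polynomial.
-/

namespace Pool.Agent.H10VJ
open NumberField IsDedekindDomain Height Module Pool.Agent.W231.V Pool.Agent.Y733.VR Polynomial
  IntermediateField
variable {K : Type} [Field K] [NumberField K]

lemma fv_le_one_iff (v : HeightOneSpectrum (𝓞 K)) (x : K) : fv v x ≤ 1 ↔ v.valuation K x ≤ 1 := by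
  have hmono : StrictMono (WithZeroMulInt.toNNReal (HeightOneSpectrum.absNorm_ne_zero v)) :=
    WithZeroMulInt.toNNReal_strictMono (HeightOneSpectrum.one_lt_absNorm_nnreal v)
  have e : fv v x = WithZeroMulInt.toNNReal (HeightOneSpectrum.absNorm_ne_zero v)
      (v.valuation K x) := NumberField.FinitePlace.norm_embedding' (v := v) (x := x)
  rw [e, ← hmono.le_iff_le, map_one]
  norm_cast

lemma isIntegral_of_fv {x : K} (h : ∀ v : HeightOneSpectrum (𝓞 K), fv v x ≤ 1) :
    ∃ y : 𝓞 K, (y : K) = x := by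
  have h1 := HeightOneSpectrum.mem_integers_of_valuation_le_one (R := 𝓞 K) K x
    fun v => (fv_le_one_iff v x).1 (h v)
  obtain ⟨y, hy⟩ := h1
  exact ⟨y, hy⟩

lemma fv_int (v : HeightOneSpectrum (𝓞 K)) (y : 𝓞 K) : fv v (y : K) ≤ 1 := by
  rw [fv_le_one_iff]
  exact v.valuation_le_one y

/-- value of the homogenisation of degree `N` -/
noncomputable def hom (P : (𝓞 K)[X]) (N : ℕ) (A B : 𝓞 K) : 𝓞 K :=
  ∑ i ∈ Finset.range (N + 1), P.coeff i * A ^ i * B ^ (N - i)

omit [NumberField K] in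
lemma coe_hom (P : (𝓞 K)[X]) (N : ℕ) (A B : 𝓞 K) : ((hom P N A B : 𝓞 K) : K) =
    ∑ i ∈ Finset.range (N + 1), ((P.coeff i : 𝓞 K) : K) * (A : K) ^ i * (B : K) ^ (N - i) := by
  change algebraMap (𝓞 K) K (hom P N A B) = _
  unfold hom
  rw [map_sum]
  refine Finset.sum_congr rfl fun i _ => ?_
  rw [map_mul, map_mul, map_pow, map_pow]

omit [NumberField K] in
lemma hom_eq (P : (𝓞 K)[X]) {N : ℕ} (hP : P.natDegree ≤ N) {A B : 𝓞 K} (hB : B ≠ 0) :
    ((hom P N A B : 𝓞 K) : K) =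
      (B : K) ^ N * (P.map (algebraMap (𝓞 K) K)).eval ((A : K) / B) := by
  have hB' : (B : K) ≠ 0 := by
    rwa [Ne, RingOfIntegers.coe_eq_zero_iff]
  have h1 : (P.map (algebraMap (𝓞 K) K)).natDegree < N + 1 :=
    Nat.lt_succ_of_le ((natDegree_map_le).trans hP)
  rw [eval_eq_sum_range' h1, Finset.mul_sum, coe_hom]
  refine Finset.sum_congr rfl fun i hi => ?_
  have hi' : i ≤ N := Nat.lt_succ_iff.1 (Finset.mem_range.1 hi)
  rw [coeff_map, div_pow]
  have : (B : K) ^ N = (B : K) ^ (N - i) * (B : K) ^ i := by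
    rw [← pow_add, Nat.sub_add_cancel hi']
  rw [this]
  field_simp

/-- the normalised norm as a sum over the infinite places -/
lemma ln_eq {x : K} (hx : x ≠ 0) :
    ln x = (∑ w : InfinitePlace K, (w.mult : ℝ) * Real.log (w x)) / finrank ℚ K := by
  unfold ln
  congr 1
  have h := InfinitePlace.prod_eq_abs_norm x
  have h1 : |(Algebra.norm ℚ x : ℝ)| = ((|Algebra.norm ℚ x| : ℚ) : ℝ) := by push_cast; rfl
  rw [h1, ← h, Real.log_prod]
  · refine Finset.sum_congr rfl fun v _ => ?_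
    rw [Real.log_pow]
  · intro v _
    exact pow_ne_zero _ (v.pos_iff.2 hx).ne'

lemma ln_hom_le (P : (𝓞 K)[X]) (N : ℕ) : ∃ C : ℝ, ∀ A B : 𝓞 K, B ≠ 0 → hom P N A B ≠ 0 →
    ln ((hom P N A B : 𝓞 K) : K) ≤
      N * ((∑ w : InfinitePlace K, (w.mult : ℝ) * Real.log (max (w (A : K)) (w (B : K)))) /
        finrank ℚ K) + C := by
  obtain ⟨cw, hcw⟩ : ∃ cw : InfinitePlace K → ℝ, cw = fun w =>
      (∑ i ∈ Finset.range (N + 1), w ((P.coeff i : 𝓞 K) : K)) + 1 := ⟨_, rfl⟩
  refine ⟨(∑ w : InfinitePlace K, (w.mult : ℝ) * Real.log (cw w)) / finrank ℚ K, ?_⟩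
  intro A B hB hV
  have hB' : (B : K) ≠ 0 := by
    rwa [Ne, RingOfIntegers.coe_eq_zero_iff]
  have hV' : ((hom P N A B : 𝓞 K) : K) ≠ 0 := by
    rwa [Ne, RingOfIntegers.coe_eq_zero_iff]
  rw [ln_eq hV', ← mul_div_assoc, ← add_div, Finset.mul_sum, ← Finset.sum_add_distrib]
  refine div_le_div_of_nonneg_right ?_ (Nat.cast_nonneg _)
  refine Finset.sum_le_sum fun w _ => ?_
  have hc1 : 1 ≤ cw w := by
    rw [hcw]
    have : 0 ≤ ∑ i ∈ Finset.range (N + 1), w ((P.coeff i : 𝓞 K) : K) :=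
      Finset.sum_nonneg fun i _ => apply_nonneg w _
    linarith
  have hmax : 0 < max (w (A : K)) (w (B : K)) := lt_max_of_lt_right (w.pos_iff.2 hB')
  have h1 : w ((hom P N A B : 𝓞 K) : K) ≤ cw w * max (w (A : K)) (w (B : K)) ^ N := by
    have h2 : w ((hom P N A B : 𝓞 K) : K) ≤
        ∑ i ∈ Finset.range (N + 1), w ((P.coeff i : 𝓞 K) : K) *
          max (w (A : K)) (w (B : K)) ^ N := by
      rw [coe_hom]
      refine (AbsoluteValue.sum_le w.1 _ _).trans (Finset.sum_le_sum fun i hi => ?_)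
      have hi' : i ≤ N := Nat.lt_succ_iff.1 (Finset.mem_range.1 hi)
      change w _ ≤ _
      rw [map_mul, map_mul, map_pow, map_pow, mul_assoc]
      refine mul_le_mul_of_nonneg_left ?_ (apply_nonneg w _)
      have : max (w (A : K)) (w (B : K)) ^ N =
          max (w (A : K)) (w (B : K)) ^ i * max (w (A : K)) (w (B : K)) ^ (N - i) := by
        rw [← pow_add, Nat.add_sub_cancel' hi']
      rw [this]
      exact mul_le_mul (pow_le_pow_left₀ (apply_nonneg w _) (le_max_left _ _) _)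
        (pow_le_pow_left₀ (apply_nonneg w _) (le_max_right _ _) _)
        (pow_nonneg (apply_nonneg w _) _) (pow_nonneg hmax.le _)
    rw [← Finset.sum_mul] at h2
    refine h2.trans (mul_le_mul_of_nonneg_right ?_ (pow_nonneg hmax.le _))
    rw [hcw]
    linarith
  have h3 : Real.log (w ((hom P N A B : 𝓞 K) : K)) ≤
      Real.log (cw w) + N * Real.log (max (w (A : K)) (w (B : K))) := by
    rw [← Real.log_pow, ← Real.log_mul (by linarith) (pow_ne_zero _ hmax.ne')]
    exact Real.log_le_log (w.pos_iff.2 hV') h1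
  have h4 : (0 : ℝ) ≤ w.mult := Nat.cast_nonneg _
  have h5 := mul_le_mul_of_nonneg_left h3 h4
  linarith

/-- the discriminant of the extension by the square root of an integer -/
lemma ld_sqrt' {L : Type} [Field L] [NumberField L] [Algebra K L] {u : 𝓞 K} (hu0 : u ≠ 0)
    {z : L} (hz : z ^ 2 = algebraMap K L (u : K)) (htop : K⟮z⟯ = ⊤) :
    ld L ≤ ld K + Real.log 2 + ln (u : K) / 2 := by
  have hu' : (u : K) ≠ 0 := by
    rwa [Ne, RingOfIntegers.coe_eq_zero_iff]
  have huL : algebraMap K L (u : K) ≠ 0 := by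
    rwa [Ne, FaithfulSMul.algebraMap_eq_zero_iff]
  have hz0 : z ≠ 0 := by
    rintro rfl
    apply huL
    rw [← hz]; ring
  have hzint : IsIntegral ℤ z := IsIntegral.of_pow (n := 2) two_pos (by
    rw [hz]
    exact (RingOfIntegers.isIntegral_coe u).map (algebraMap K L).toIntAlgHom)
  obtain ⟨β, hβ⟩ : ∃ β : 𝓞 L, (β : L) = z := ⟨⟨z, hzint⟩, rfl⟩
  have htop' : K⟮(β : L)⟯ = ⊤ := by rw [hβ]; exact htop
  have hroot : aeval β (X ^ 2 - C u : (𝓞 K)[X]) = 0 := by
    apply RingOfIntegers.coe_injective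
    rw [map_sub, map_pow, aeval_X, aeval_C, map_sub, map_pow, map_zero]
    have : algebraMap (𝓞 L) L (algebraMap (𝓞 K) (𝓞 L) u) = algebraMap K L (u : K) := rfl
    have h2 : algebraMap (𝓞 L) L β = z := hβ
    rw [this, ← hz, h2]
    exact sub_self _
  have hder : aeval β (derivative (X ^ 2 - C u : (𝓞 K)[X])) = 2 * β := by
    simp
    left
    norm_num
  have h3 : ((2 * β : 𝓞 L) : L) = 2 * z := by
    rw [← hβ]
    push_cast
    rfl
  have h := ld_le K L β htop' (X ^ 2 - C u) hroot (by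
    rw [hder]
    intro h0
    have h1 : (2 * β : 𝓞 L) = 0 := h0
    have h2 : ((2 * β : 𝓞 L) : L) = 0 := by rw [h1]; rfl
    rw [h3] at h2
    exact (mul_ne_zero two_ne_zero hz0) h2)
  rw [hder, h3] at h
  have h5 : ln (2 * z : L) = Real.log 2 + ln (u : K) / 2 := by
    have h2 : ln ((2 : ℕ) : L) = Real.log (2 : ℕ) := ln_natCast 2 two_ne_zero
    have h6 : ln (z * z) = ln z + ln z := ln_mul z z hz0 hz0
    have h7 : z * z = algebraMap K L (u : K) := by rw [← hz]; ring
    have h8 : ln (algebraMap K L (u : K)) = ln (u : K) := by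
      unfold ln
      rw [finrank_tower K L]
      have h9 : Algebra.norm ℚ (algebraMap K L (u : K)) = (Algebra.norm ℚ (u : K)) ^ finrank K L := by
        rw [← Algebra.norm_norm (S := K), Algebra.norm_algebraMap, map_pow]
      rw [h9]
      push_cast
      rw [abs_pow, Real.log_pow]
      have hK : (0 : ℝ) < finrank ℚ K := deg_pos
      have hKL : (0 : ℝ) < finrank K L := by
        exact_mod_cast finrank_pos
      field_simp
    rw [h7, h8] at h6
    push_cast at h2
    rw [ln_mul _ _ two_ne_zero hz0, h2]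
    linarith
  unfold ln at h5
  unfold ln
  linarith

/-- the field generated by the square root of the value of a polynomial of degree `≤ 2 h` -/
theorem core_disc (G : K[X]) (h : ℕ) (hG : G.natDegree ≤ 2 * h) : ∃ Cst : ℝ, ∀ (s : K) (j : ℕ),
    G.eval s ≠ 0 →
    (∀ v : HeightOneSpectrum (𝓞 K), fv v 2 < 1 → fv v (G.eval s) ≤ fv v 2 ^ (2 * j)) →
    ∃ (L : Type) (_ : Field L) (_ : NumberField L) (_ : Algebra K L) (z : L) (ρ : K), ρ ≠ 0 ∧
      z ^ 2 = algebraMap K L (G.eval s * ρ ^ 2) ∧ K⟮z⟯ = ⊤ ∧ finrank K L ≤ 2 ∧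
      ld L ≤ ld K + h * hh s - j * Real.log 2 + Cst := by
  obtain ⟨c, hc, hrep⟩ := exists_rep K
  obtain ⟨b, hbM, hbP⟩ := IsLocalization.integerNormalization_spec (nonZeroDivisors (𝓞 K)) G
  set P : (𝓞 K)[X] := IsLocalization.integerNormalization (nonZeroDivisors (𝓞 K)) G with hP
  have hb0 : b ≠ 0 := nonZeroDivisors.ne_zero hbM
  have hbK : (b : K) ≠ 0 := by
    rwa [Ne, RingOfIntegers.coe_eq_zero_iff]
  have hbP' : P.map (algebraMap (𝓞 K) K) = C (b : K) * G := by
    rw [hbP]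
    ext i
    rw [coeff_smul, coeff_C_mul, Algebra.smul_def]
  have hPdeg : P.natDegree ≤ 2 * h := by
    have h1 : P.natDegree = (P.map (algebraMap (𝓞 K) K)).natDegree :=
      (natDegree_map_eq_of_injective (FaithfulSMul.algebraMap_injective (𝓞 K) K) P).symm
    rw [h1, hbP']
    exact (natDegree_C_mul_le _ _).trans hG
  obtain ⟨CP, hCP⟩ := ln_hom_le P (2 * h)
  refine ⟨Real.log 2 + (ln (b : K) + 2 * h * Real.log c + CP) / 2, ?_⟩
  intro s j hs hv
  obtain ⟨A, B, hB, hsAB, hcm⟩ := hrep s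
  have hBK : (B : K) ≠ 0 := by
    rwa [Ne, RingOfIntegers.coe_eq_zero_iff]
  have hhom : ((hom P (2 * h) A B : 𝓞 K) : K) = (B : K) ^ (2 * h) * ((b : K) * G.eval s) := by
    rw [hom_eq P hPdeg hB, hbP', ← hsAB, eval_mul, eval_C]
  have hhom0 : hom P (2 * h) A B ≠ 0 := by
    intro h0
    rw [h0] at hhom
    have h1 : (B : K) ^ (2 * h) * ((b : K) * G.eval s) = 0 := by
      rw [← hhom]; rfl
    exact mul_ne_zero (pow_ne_zero _ hBK) (mul_ne_zero hbK hs) h1
  -- the integer `V = b * hom`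
  have hV : ((b * hom P (2 * h) A B : 𝓞 K) : K) =
      G.eval s * ((b : K) * (B : K) ^ h) ^ 2 := by
    have h1 : ((b * hom P (2 * h) A B : 𝓞 K) : K) =
        (b : K) * ((hom P (2 * h) A B : 𝓞 K) : K) := by push_cast; rfl
    rw [h1, hhom]
    ring
  have h2K : (2 : K) ≠ 0 := two_ne_zero
  have hint : ∀ v : HeightOneSpectrum (𝓞 K),
      fv v (((b * hom P (2 * h) A B : 𝓞 K) : K) / 4 ^ j) ≤ 1 := by
    intro v
    have h4 : fv v (4 : K) = fv v 2 ^ 2 := by
      rw [← map_pow]; norm_num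
    have h2pos : 0 < fv v (2 : K) := (fv v).pos h2K
    have h2le : fv v (2 : K) ≤ 1 := by
      have := fv_nat v 2
      push_cast at this
      exact this
    rw [map_div₀, map_pow, h4, ← pow_mul, div_le_one (pow_pos h2pos _)]
    rcases h2le.lt_or_eq with hlt | heq
    · rw [hV, map_mul, map_pow, map_mul, map_pow]
      have e1 := hv v hlt
      have e2 : (fv v (b : K) * fv v (B : K) ^ h) ^ 2 ≤ 1 := by
        apply pow_le_one₀ (mul_nonneg (apply_nonneg _ _) (pow_nonneg (apply_nonneg _ _) _))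
        exact mul_le_one₀ (fv_int v _) (pow_nonneg (apply_nonneg _ _) _)
          (pow_le_one₀ (apply_nonneg _ _) (fv_int v _))
      calc fv v (G.eval s) * (fv v (b : K) * fv v (B : K) ^ h) ^ 2
          ≤ fv v (G.eval s) * 1 := mul_le_mul_of_nonneg_left e2 (apply_nonneg _ _)
        _ ≤ fv v 2 ^ (2 * j) := by rw [mul_one]; exact e1
    · rw [heq, one_pow]
      exact fv_int v _
  obtain ⟨W, hW⟩ := isIntegral_of_fv hint
  have hW4 : (W : K) * ((4 ^ j : ℕ) : K) = ((b * hom P (2 * h) A B : 𝓞 K) : K) := by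
    rw [hW]
    push_cast
    rw [div_mul_cancel₀]
    exact pow_ne_zero _ (by norm_num)
  have hVne : ((b * hom P (2 * h) A B : 𝓞 K) : K) ≠ 0 := by
    rw [hV]
    exact mul_ne_zero hs (pow_ne_zero _ (mul_ne_zero hbK (pow_ne_zero _ hBK)))
  have hWK : (W : K) ≠ 0 := by
    intro h0
    rw [h0, zero_mul] at hW4
    exact hVne hW4.symm
  have hW0 : W ≠ 0 := by
    rintro rfl
    exact hWK rfl
  have hρ : (W : K) = G.eval s * ((b : K) * (B : K) ^ h / 2 ^ j) ^ 2 := by
    rw [hW, hV]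
    have : (4 : K) ^ j = (2 ^ j) ^ 2 := by
      rw [← pow_mul, mul_comm j 2, pow_mul]; norm_num
    rw [this]
    field_simp
  -- the field
  obtain ⟨σ⟩ : Nonempty (K →+* ℂ) := inferInstance
  obtain ⟨zc, hzc⟩ := IsAlgClosed.exists_pow_nat_eq (σ (W : K)) two_pos
  obtain ⟨L, fL, nL, aL, -, z, -, -, hz, htop, hfin⟩ := ext_sqrt K σ (W : K) zc hzc
  refine ⟨L, fL, nL, aL, z, (b : K) * (B : K) ^ h / 2 ^ j, ?_, ?_, htop, hfin, ?_⟩
  · exact div_ne_zero (mul_ne_zero hbK (pow_ne_zero _ hBK)) (pow_ne_zero _ h2K)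
  · rw [hz, hρ]
  · have e1 := ld_sqrt' hW0 hz htop
    -- the norm of `W`
    have e2 : ln (W : K) + Real.log ((4 ^ j : ℕ) : ℝ) =
        ln (b : K) + ln ((hom P (2 * h) A B : 𝓞 K) : K) := by
      have h4 : ((4 ^ j : ℕ) : K) ≠ 0 := Nat.cast_ne_zero.2 (pow_ne_zero _ (by norm_num))
      have hhK : ((hom P (2 * h) A B : 𝓞 K) : K) ≠ 0 := by
        rwa [Ne, RingOfIntegers.coe_eq_zero_iff]
      rw [← ln_natCast (K := K) (4 ^ j) (pow_ne_zero _ (by norm_num)), ← ln_mul _ _ hWK h4, hW4,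
        ← ln_mul _ _ hbK hhK]
      congr 1
    have e3 := hCP A B hB hhom0
    have e4 := arch_le hB hc hcm
    rw [← hsAB] at e4
    have hn : (0 : ℝ) < finrank ℚ K := deg_pos
    have e5 : (∑ w : InfinitePlace K, (w.mult : ℝ) * Real.log (max (w (A : K)) (w (B : K)))) /
        finrank ℚ K ≤ hh s + Real.log c := by
      rw [div_le_iff₀ hn, add_mul, ← hh_mul_deg]
      linarith
    have e6 : Real.log ((4 ^ j : ℕ) : ℝ) = 2 * (j * Real.log 2) := by
      push_cast
      rw [Real.log_pow, show (4 : ℝ) = 2 ^ 2 by norm_num, Real.log_pow]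
      push_cast
      ring
    rw [e6] at e2
    have e7 : (((2 * h : ℕ) : ℝ)) * ((∑ w : InfinitePlace K, (w.mult : ℝ) *
        Real.log (max (w (A : K)) (w (B : K)))) / finrank ℚ K) ≤ 2 * h * (hh s + Real.log c) := by
      push_cast
      exact mul_le_mul_of_nonneg_left e5 (by positivity)
    linarith

end Pool.Agent.H10VJ
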