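import Mathlib
import Pool.Agent.H10VJ.Form

set_option autoImplicit false

/-!
Points of an elliptic curve which are `2`-adically close to a given point.
-/

namespace Pool.Agent.H10VJ
open NumberField IsDedekindDomain Height Module Pool.Agent.W231.V Pool.Agent.Y733.VR Polynomial

section alg
variable {K : Type} [Field K]

lemma dbl_identity {a b u w μ u' : K} (h1 : w ^ 2 = u ^ 3 + a * u + b)
    (h2 : 2 * w * μ = 3 * u ^ 2 + a) (h3 : u' = μ ^ 2 - 2 * u) :
    (μ * (u - u') - w) ^ 2 = u' ^ 3 + a * u' + b := by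
  have h4 : (u' - u) ^ 2 * (u' + 2 * u - μ ^ 2) = 0 := by rw [h3]; ring
  linear_combination h1 + (u' - u) * h2 - h4

lemma add_identity {a b xA yA u w l X : K} (hA : yA ^ 2 = xA ^ 3 + a * xA + b)
    (hQ : w ^ 2 = u ^ 3 + a * u + b) (hu : u - xA ≠ 0) (hl : l * (u - xA) = w - yA)
    (hX : X = l ^ 2 - xA - u) :
    (yA + l * (X - xA)) ^ 2 = X ^ 3 + a * X + b := by
  have hq : u ^ 2 + u * xA + xA ^ 2 + a - 2 * yA * l - l ^ 2 * (u - xA) = 0 := by
    apply mul_left_cancel₀ hu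
    have hw : w = yA + l * (u - xA) := by linear_combination -hl
    rw [hw] at hQ
    linear_combination hA - hQ
  have h2 : X + u + xA - l ^ 2 = 0 := by rw [hX]; ring
  linear_combination hA - (X - xA) * hq - (X - xA) * (X - u) * h2

lemma add_diff {a b xA yA u w l X : K} (hQ : w ^ 2 = u ^ 3 + a * u + b)
    (hl : l * (u - xA) = w - yA) (hX : X = l ^ 2 - xA - u) :
    (X - xA) * (u - xA) ^ 2 =
      -(2 * yA * w) + ((3 * xA ^ 2 + a) * u + (b + yA ^ 2 - 2 * xA ^ 3)) := by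
  have h1 : (l * (u - xA)) ^ 2 = (w - yA) ^ 2 := by rw [hl]
  rw [hX]
  linear_combination h1 + hQ

end alg

variable {K : Type} [Field K] [NumberField K]

lemma fv_na_lt {v : HeightOneSpectrum (𝓞 K)} {x y : K} (h : fv v y < fv v x) :
    fv v (x + y) = fv v x := by
  apply le_antisymm
  · exact (fv_na v x y).trans (max_le le_rfl h.le)
  · have h1 := fv_na v (x + y) (-y)
    rw [add_neg_cancel_right, map_neg_eq_map] at h1
    rcases le_max_iff.1 h1 with h2 | h2
    · exact h2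
    · exact absurd h (not_lt.2 h2)

lemma fv_two_pos (v : HeightOneSpectrum (𝓞 K)) : 0 < fv v (2 : K) := (fv v).pos two_ne_zero

lemma fv_two_le (v : HeightOneSpectrum (𝓞 K)) : fv v (2 : K) ≤ 1 := by
  have := fv_nat v 2
  push_cast at this
  exact this

/-- `x` has at most `N` powers of two in the denominator -/
def TwoBdd {F : Type} [Field F] (x : F) (N : ℕ) : Prop :=
  ∃ D : ℕ, Odd D ∧ IsIntegral ℤ ((D : F) * 2 ^ N * x)

lemma TwoBdd.mono {F : Type} [Field F] {x : F} {N N' : ℕ} (h : TwoBdd x N) (hN : N ≤ N') :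
    TwoBdd x N' := by
  obtain ⟨D, hD, hi⟩ := h
  refine ⟨D, hD, ?_⟩
  obtain ⟨j, rfl⟩ := Nat.exists_eq_add_of_le hN
  have h2 : IsIntegral ℤ ((2 : F) ^ j) := by
    have := isIntegral_algebraMap (R := ℤ) (A := F) (x := (2 : ℤ) ^ j)
    simpa using this
  have e : ((D : F) * 2 ^ (N + j) * x) = 2 ^ j * ((D : F) * 2 ^ N * x) := by
    rw [pow_add]; ring
  rw [e]
  exact h2.mul hi

lemma exists_twoBdd (x : K) : ∃ N : ℕ, TwoBdd x N := by
  obtain ⟨A, B, hB, hx⟩ := IsFractionRing.div_surjective (A := 𝓞 K) x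
  have hB0 : B ≠ 0 := nonZeroDivisors.ne_zero hB
  set n := Ideal.absNorm (Ideal.span {B}) with hn
  have hn0 : n ≠ 0 := by
    rw [hn, Ne, Ideal.absNorm_eq_zero_iff, Ideal.span_singleton_eq_bot]
    exact hB0
  have hmem : (n : 𝓞 K) ∈ Ideal.span {B} := Ideal.absNorm_mem _
  obtain ⟨Cc, hC⟩ := Ideal.mem_span_singleton'.1 hmem
  obtain ⟨N, D, hD, hnD⟩ := Nat.exists_eq_two_pow_mul_odd hn0
  refine ⟨N, D, hD, ?_⟩
  have h1 : ((D : K) * 2 ^ N * x) = ((Cc * A : 𝓞 K) : K) := by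
    have e1 : (n : K) = ((Cc : 𝓞 K) : K) * (B : K) := by
      have := congrArg (algebraMap (𝓞 K) K) hC
      rw [map_mul, map_natCast] at this
      exact this.symm
    have e2 : (n : K) = 2 ^ N * (D : K) := by
      rw [hnD]; push_cast; rfl
    have hBK : algebraMap (𝓞 K) K B ≠ 0 := by
      rwa [Ne, FaithfulSMul.algebraMap_eq_zero_iff]
    have e3 : ((Cc * A : 𝓞 K) : K) = algebraMap (𝓞 K) K Cc * algebraMap (𝓞 K) K A := by
      exact map_mul _ _ _
    rw [e3, ← hx, mul_comm (D : K), ← e2, e1]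
    change algebraMap (𝓞 K) K Cc * algebraMap (𝓞 K) K B *
      (algebraMap (𝓞 K) K A / algebraMap (𝓞 K) K B) = _
    field_simp
  rw [h1]
  exact RingOfIntegers.isIntegral_coe _

lemma fv_odd {v : HeightOneSpectrum (𝓞 K)} (hv : fv v (2 : K) < 1) {D : ℕ} (hD : Odd D) :
    fv v (D : K) = 1 := by
  obtain ⟨k, rfl⟩ := hD
  have h1 : fv v ((2 * k : ℕ) : K) < fv v (1 : K) := by
    rw [map_one]
    push_cast
    rw [map_mul]
    calc fv v (2 : K) * fv v (k : K) ≤ fv v (2 : K) * 1 :=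
          mul_le_mul_of_nonneg_left (fv_nat v k) (apply_nonneg _ _)
      _ < 1 := by rw [mul_one]; exact hv
  have h2 := fv_na_lt h1
  rw [map_one] at h2
  rw [← h2]
  congr 1
  push_cast
  ring

lemma TwoBdd.fv {x : K} {N : ℕ} (h : TwoBdd x N) {v : HeightOneSpectrum (𝓞 K)}
    (hv : fv v (2 : K) < 1) : fv v x * fv v 2 ^ N ≤ 1 := by
  obtain ⟨D, hD, hi⟩ := h
  have h1 : Pool.Agent.W231.V.fv v ((D : K) * 2 ^ N * x) ≤ 1 := by
    obtain ⟨y, hy⟩ : ∃ y : 𝓞 K, (y : K) = (D : K) * 2 ^ N * x := ⟨⟨_, hi⟩, rfl⟩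
    rw [← hy]
    exact fv_int v y
  rw [map_mul, map_mul, fv_odd hv hD, one_mul, map_pow, mul_comm] at h1
  exact h1

end Pool.Agent.H10VJ
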