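import Mathlib
import Pool.Agent.H10VJ.Ell

set_option autoImplicit false

/-!
Heights of values of rational functions; `2`-adic size of points near infinity on an elliptic curve.
-/

namespace Pool.Agent.H10VJ
open NumberField IsDedekindDomain Height Module Pool.Agent.W231.V Pool.Agent.Y733.VR Polynomial

variable {K : Type} [Field K] [NumberField K]

/-- the homogenisation of a polynomial of degree `≤ N` in one variable -/
noncomputable def hmg {F : Type} [Field F] (N : ℕ) (P : F[X]) : MvPolynomial (Fin 2) F :=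
  ∑ i ∈ Finset.range (N + 1),
    MvPolynomial.C (P.coeff i) * MvPolynomial.X 0 ^ i * MvPolynomial.X 1 ^ (N - i)

lemma hmg_hom {F : Type} [Field F] (N : ℕ) (P : F[X]) : (hmg N P).IsHomogeneous N := by
  refine MvPolynomial.IsHomogeneous.sum _ _ _ fun i hi => ?_
  have hi' : i ≤ N := Nat.lt_succ_iff.1 (Finset.mem_range.1 hi)
  have h1 := ((MvPolynomial.isHomogeneous_C (Fin 2) (P.coeff i)).mul
    (MvPolynomial.isHomogeneous_X_pow (R := F) (0 : Fin 2) i)).mul
    (MvPolynomial.isHomogeneous_X_pow (R := F) (1 : Fin 2) (N - i))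
  have e : 0 + i + (N - i) = N := by omega
  rwa [e] at h1

lemma hmg_eval {F : Type} [Field F] {N : ℕ} {P : F[X]} (hP : P.natDegree ≤ N) (u : F) :
    MvPolynomial.eval ![u, 1] (hmg N P) = P.eval u := by
  unfold hmg
  rw [eval_eq_sum_range' (Nat.lt_succ_of_le hP), map_sum]
  refine Finset.sum_congr rfl fun i _ => ?_
  simp

/-- height of the value of a rational function -/
lemma hh_ratio_le (A B : K[X]) {N : ℕ} (hA : A.natDegree ≤ N) (hB : B.natDegree ≤ N) :
    ∃ C : ℝ, ∀ u : K, hh (A.eval u / B.eval u) ≤ N * hh u + C := by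
  obtain ⟨C, hC⟩ := logHeight_eval_le' (K := K) (N := N) (p := ![hmg N A, hmg N B]) (by
    intro i
    fin_cases i
    · exact hmg_hom N A
    · exact hmg_hom N B)
  refine ⟨C / finrank ℚ K, fun u => ?_⟩
  have h := hC ![u, 1]
  have e : (fun j : Fin 2 => MvPolynomial.eval ![u, 1] ((![hmg N A, hmg N B] : Fin 2 → _) j)) =
      ![A.eval u, B.eval u] := by
    funext j
    fin_cases j
    · exact hmg_eval hA u
    · exact hmg_eval hB u
  rw [e, ← logHeight₁_div_eq_logHeight, ← logHeight₁_eq_logHeight] at h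
  unfold hh
  have hn : (0 : ℝ) < finrank ℚ K := deg_pos
  rw [← mul_div_assoc, ← add_div]
  exact div_le_div_of_nonneg_right (by linarith) hn.le

lemma hh_eval_le (A : K[X]) {N : ℕ} (hA : A.natDegree ≤ N) :
    ∃ C : ℝ, ∀ u : K, hh (A.eval u) ≤ N * hh u + C := by
  obtain ⟨C, hC⟩ := hh_ratio_le A 1 hA (by simp)
  refine ⟨C, fun u => ?_⟩
  have := hC u
  simpa using this

/-- comparison of heights through the finite places -/
lemma hh_two_pow_le {x : K} (hx : x ≠ 0) {k : ℕ}
    (h : ∀ v : HeightOneSpectrum (𝓞 K), fv v 2 < 1 → fv v x ≤ fv v 2 ^ k) :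
    k * Real.log 2 ≤ hh x := by
  have h2 : (2 : K) ≠ 0 := two_ne_zero
  have e1 : hh ((2 : K) ^ k)⁻¹ = k * Real.log 2 := by
    rw [hh_inv, hh_pow]
    have := hh_natCast (K := K) 2
    push_cast at this
    rw [this]
  rw [← e1, ← hh_inv x]
  unfold hh
  refine div_le_div_of_nonneg_right ?_ (Nat.cast_nonneg _)
  have hy : ((2 : K) ^ k)⁻¹ ≠ 0 := inv_ne_zero (pow_ne_zero _ h2)
  have hfin := fv_support_finite hy
  have hle : logHeight₁ ((2 : K) ^ k)⁻¹ = ∑ v ∈ hfin.toFinset, Real.posLog (fv v ((2 : K) ^ k)⁻¹) := by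
    rw [NumberField.logHeight₁_eq]
    have h1 : ∑ᶠ w : FinitePlace K, Real.posLog (w ((2 : K) ^ k)⁻¹) =
        ∑ᶠ v : HeightOneSpectrum (𝓞 K), Real.posLog (fv v ((2 : K) ^ k)⁻¹) := by
      rw [← finsum_comp_equiv (FinitePlace.equivHeightOneSpectrum (K := K)).symm]
      rfl
    have h3 : ∑ w : InfinitePlace K, (w.mult : ℝ) * Real.posLog (w ((2 : K) ^ k)⁻¹) = 0 := by
      refine Finset.sum_eq_zero fun w _ => ?_
      rw [mul_eq_zero]
      right
      rw [Real.posLog_eq_zero_iff, map_inv₀, map_pow, abs_of_nonneg (by positivity)]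
      have : w (2 : K) = 2 := by
        have := InfinitePlace.map_natCast w 2
        push_cast at this
        exact this
      rw [this]
      exact inv_le_one_of_one_le₀ (one_le_pow₀ (by norm_num))
    rw [h1, h3, zero_add]
    refine finsum_eq_sum_of_support_subset _ ?_
    intro v hv
    rw [Set.Finite.coe_toFinset]
    simp only [Function.mem_support, Set.mem_ofPred_eq] at hv ⊢
    intro h
    rw [h] at hv
    exact hv Real.posLog_one
  rw [hle]
  refine le_trans (Finset.sum_le_sum fun v _ => ?_) (sum_posLog_le (inv_ne_zero hx) hfin.toFinset)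
  rcases (fv_two_le v).lt_or_eq with hlt | heq
  · refine Real.posLog_le_posLog (apply_nonneg _ _) ?_
    rw [map_inv₀, map_inv₀, map_pow]
    exact inv_anti₀ ((fv v).pos hx) (h v hlt)
  · rw [map_inv₀, map_pow, heq, one_pow, inv_one, Real.posLog_one]
    exact Real.posLog_nonneg

end Pool.Agent.H10VJ
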