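import Mathlib
import Pool.Agent.H10VJ.Seq

set_option autoImplicit false

/-!
Points of an elliptic curve `2`-adically close to a given point: sizes and heights.
-/

namespace Pool.Agent.H10VJ
open NumberField IsDedekindDomain Height Module Pool.Agent.W231.V Pool.Agent.Y733.VR Polynomial

variable {K : Type} [Field K] [NumberField K]

/-- `x` is divisible by `2 ^ e` at `v` -/
def Lv (v : HeightOneSpectrum (𝓞 K)) (x : K) (e : ℤ) : Prop := fv v x ≤ fv v 2 ^ e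

section
variable {v : HeightOneSpectrum (𝓞 K)} {x y : K} {e f : ℤ}

lemma Lv.mul (h1 : Lv v x e) (h2 : Lv v y f) : Lv v (x * y) (e + f) := by
  unfold Lv
  rw [map_mul, zpow_add₀ (fv_two_pos v).ne']
  exact mul_le_mul h1 h2 (apply_nonneg _ _) (zpow_pos (fv_two_pos v) _).le

lemma Lv.mono (h1 : Lv v x e) (h : f ≤ e) : Lv v x f :=
  h1.trans (zpow_le_zpow_right_of_le_one₀ (fv_two_pos v) (fv_two_le v) h)

lemma Lv.add (h1 : Lv v x e) (h2 : Lv v y e) : Lv v (x + y) e :=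
  (fv_na v x y).trans (max_le h1 h2)

lemma Lv.neg (h1 : Lv v x e) : Lv v (-x) e := by
  unfold Lv
  rw [map_neg_eq_map]
  exact h1

lemma Lv.sub (h1 : Lv v x e) (h2 : Lv v y e) : Lv v (x - y) e := by
  rw [sub_eq_add_neg]
  exact h1.add h2.neg

lemma Lv.nat (n : ℕ) : Lv v (n : K) 0 := by
  unfold Lv
  rw [zpow_zero]
  exact fv_nat v n

lemma Lv.two : Lv v (2 : K) 1 := by
  unfold Lv
  rw [zpow_one]

lemma Lv.pow (h1 : Lv v x e) (n : ℕ) : Lv v (x ^ n) (n * e) := by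
  induction n with
  | zero =>
    have := Lv.nat (v := v) (K := K) 1
    simpa using this
  | succ n ih =>
    rw [pow_succ]
    exact (ih.mul h1).mono (by push_cast; ring_nf; exact le_rfl)

lemma Lv.lt (hv : fv v (2 : K) < 1) (h1 : Lv v x e) (h : f < e) : fv v x < fv v 2 ^ f :=
  h1.trans_lt (zpow_lt_zpow_right_of_lt_one₀ (fv_two_pos v) hv h)

/-- `u` large, `w ^ 2 = u ^ 3 + a u + b` -/
lemma w_size (hv : fv v (2 : K) < 1) {a b u w : K} {m n : ℤ} (hn : 0 ≤ n) (hm : n < 4 * m)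
    (ha : Lv v a (-n)) (hb : Lv v b (-n)) (hu : fv v u = fv v 2 ^ (-(2 * m)))
    (hw : w ^ 2 = u ^ 3 + a * u + b) : fv v w = fv v 2 ^ (-(3 * m)) := by
  have ht := fv_two_pos v
  have hu' : Lv v u (-(2 * m)) := hu.le
  have h1 : fv v (u ^ 3) = fv v 2 ^ (-(6 * m)) := by
    rw [map_pow, hu, ← zpow_natCast, ← zpow_mul]
    congr 1
    push_cast; ring
  have h2 : fv v (a * u + b) < fv v (u ^ 3) := by
    rw [h1]
    refine Lv.lt hv (e := -n + -(2 * m)) ?_ (by omega)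
    exact (ha.mul hu').add (hb.mono (by omega))
  have h3 := fv_na_lt h2
  rw [← add_assoc, ← hw, h1, map_pow] at h3
  have h4 : fv v w ^ 2 = (fv v 2 ^ (-(3 * m))) ^ 2 := by
    rw [h3, ← zpow_natCast (fv v 2 ^ (-(3 * m))), ← zpow_mul]
    congr 1
    push_cast; ring
  exact (pow_left_inj₀ (apply_nonneg _ _) (zpow_pos ht _).le two_ne_zero).1 h4

lemma u_size (hv : fv v (2 : K) < 1) {a b u w μ u' : K} {m n : ℤ} (hn : 0 ≤ n) (hm : n < 4 * m)
    (ha : Lv v a (-n)) (hb : Lv v b (-n)) (hu : fv v u = fv v 2 ^ (-(2 * m)))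
    (hw : w ^ 2 = u ^ 3 + a * u + b) (hμ : 2 * w * μ = 3 * u ^ 2 + a) (hu' : u' = μ ^ 2 - 2 * u) :
    fv v u' = fv v 2 ^ (-(2 * (m + 1))) := by
  have ht := fv_two_pos v
  have hul : Lv v u (-(2 * m)) := hu.le
  have hws := w_size hv hn hm ha hb hu hw
  have key : u' * (2 * w) ^ 2 = u ^ 4 + (-(2 * (a * u ^ 2)) + -(8 * (b * u)) + a ^ 2) := by
    rw [hu']
    have : (2 * w * μ) ^ 2 = (3 * u ^ 2 + a) ^ 2 := by rw [hμ]
    linear_combination this - 8 * u * hw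
  have h1 : fv v (u ^ 4) = fv v 2 ^ (-(8 * m)) := by
    rw [map_pow, hu, ← zpow_natCast, ← zpow_mul]
    congr 1
    push_cast; ring
  have h2 : fv v (-(2 * (a * u ^ 2)) + -(8 * (b * u)) + a ^ 2) < fv v (u ^ 4) := by
    rw [h1]
    have m0 : 0 < m := by omega
    refine Lv.lt hv (e := -(8 * m) + 1) ?_ (by omega)
    refine Lv.add (Lv.add (Lv.neg ?_) (Lv.neg ?_)) ?_
    · exact (Lv.two.mul (ha.mul (hul.pow 2))).mono (by push_cast; omega)
    · have h8 : Lv v (8 : K) 0 := by exact_mod_cast Lv.nat (v := v) (K := K) 8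
      exact (h8.mul (hb.mul hul)).mono (by omega)
    · exact (ha.pow 2).mono (by push_cast; omega)
  have h3 := fv_na_lt h2
  rw [← key, h1, map_mul, map_pow, map_mul, hws] at h3
  have h5 : (fv v 2 * fv v 2 ^ (-(3 * m))) ^ 2 = fv v 2 ^ (2 - 6 * m) := by
    rw [← zpow_one_add₀ ht.ne', ← zpow_natCast, ← zpow_mul]
    congr 1
    push_cast; ring
  rw [h5] at h3
  have h6 : fv v 2 ^ (2 - 6 * m) ≠ 0 := (zpow_pos ht _).ne'
  have h7 : fv v u' = fv v 2 ^ (-(8 * m)) / fv v 2 ^ (2 - 6 * m) := by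
    rw [eq_div_iff h6]; exact h3
  rw [h7, ← zpow_sub₀ ht.ne']
  congr 1
  ring

lemma X_size (hv : fv v (2 : K) < 1) {a b xA yA u w l X : K} {m n : ℤ} (hn : 0 ≤ n)
    (hm : 3 * n + 1 < m)
    (ha : Lv v a (-n)) (hb : Lv v b (-n)) (hx : Lv v xA (-n)) (hy : Lv v yA (-n))
    (hyi : Lv v yA⁻¹ (-n)) (hyA : yA ≠ 0) (hu : fv v u = fv v 2 ^ (-(2 * m)))
    (hw : w ^ 2 = u ^ 3 + a * u + b) (hl : l * (u - xA) = w - yA)
    (hX : X = l ^ 2 - xA - u) :
    X - xA ≠ 0 ∧ Lv v (X - xA) (m + 1 - n) := by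
  have ht := fv_two_pos v
  have hul : Lv v u (-(2 * m)) := hu.le
  have hws := w_size hv hn (by omega) ha hb hu hw
  have key := add_diff hw hl hX
  -- the size of `yA`
  have hyA' : fv v 2 ^ n ≤ fv v yA := by
    unfold Lv at hyi
    rw [map_inv₀, zpow_neg] at hyi
    exact (inv_le_inv₀ ((fv v).pos hyA) (zpow_pos ht _)).1 hyi
  have h1 : fv v (-(2 * yA * w)) = fv v yA * fv v 2 ^ (1 - 3 * m) := by
    rw [map_neg_eq_map, map_mul, map_mul, hws, sub_eq_add_neg, zpow_add₀ ht.ne', zpow_one]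
    ring
  have h1' : fv v 2 ^ (n + 1 - 3 * m) ≤ fv v (-(2 * yA * w)) := by
    rw [h1, show n + 1 - 3 * m = n + (1 - 3 * m) by ring, zpow_add₀ ht.ne']
    exact mul_le_mul_of_nonneg_right hyA' (zpow_pos ht _).le
  have h2 : fv v ((3 * xA ^ 2 + a) * u + (b + yA ^ 2 - 2 * xA ^ 3)) < fv v (-(2 * yA * w)) := by
    refine lt_of_lt_of_le ?_ h1'
    refine Lv.lt hv (e := n + 2 - 3 * m) ?_ (by omega)
    have h3 : Lv v (3 : K) 0 := by exact_mod_cast Lv.nat (v := v) (K := K) 3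
    refine Lv.add (((Lv.add (e := -(2 * n)) ?_ ?_).mul hul).mono (by omega)) (Lv.sub (Lv.add ?_ ?_) ?_)
    · exact (h3.mul (hx.pow 2)).mono (by push_cast; omega)
    · exact ha.mono (by omega)
    · exact hb.mono (by omega)
    · exact (hy.pow 2).mono (by push_cast; omega)
    · exact (Lv.two.mul (hx.pow 3)).mono (by push_cast; omega)
  have h3 := fv_na_lt h2
  rw [← key] at h3
  have h4 : fv v (u - xA) = fv v 2 ^ (-(2 * m)) := by
    have : fv v (-xA) < fv v u := by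
      rw [hu]
      exact Lv.lt hv hx.neg (by omega)
    have h5 := fv_na_lt this
    rw [← sub_eq_add_neg] at h5
    rw [h5, hu]
  rw [map_mul, map_pow, h4, h1] at h3
  have h5 : (fv v 2 ^ (-(2 * m))) ^ 2 = fv v 2 ^ (-(4 * m)) := by
    rw [← zpow_natCast, ← zpow_mul]
    congr 1
    push_cast; ring
  rw [h5] at h3
  have h6 : fv v 2 ^ (-(4 * m)) ≠ 0 := (zpow_pos ht _).ne'
  have h7 : fv v (X - xA) = fv v yA * fv v 2 ^ (m + 1) := by
    have h8 : fv v (X - xA) = fv v yA * fv v 2 ^ (1 - 3 * m) / fv v 2 ^ (-(4 * m)) := by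
      rw [eq_div_iff h6]; exact h3
    rw [h8, mul_div_assoc, ← zpow_sub₀ ht.ne']
    congr 2
    ring
  constructor
  · intro h0
    rw [h0, map_zero] at h7
    exact (mul_pos ((fv v).pos hyA) (zpow_pos ht (m + 1))).ne h7
  · unfold Lv
    rw [h7, show m + 1 - n = -n + (m + 1) by ring, zpow_add₀ ht.ne' (-n)]
    exact mul_le_mul_of_nonneg_right hy (zpow_pos ht _).le

end

lemma exists_above_two : ∃ v : HeightOneSpectrum (𝓞 K), fv v (2 : K) < 1 := by
  by_contra! h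
  have h1 := hh_two_pow_le (K := K) (x := 1) one_ne_zero (k := 1) fun v hv =>
    absurd hv (not_lt.2 (h v))
  rw [hh_one] at h1
  have := Real.log_pos (by norm_num : (1 : ℝ) < 2)
  push_cast at h1
  linarith


/-- points going to infinity by doubling -/
theorem seq_points {a b u0 w0 : K} {N n : ℤ} (hn : 0 ≤ n) (hN : n < 4 * N)
    (ha : ∀ v : HeightOneSpectrum (𝓞 K), fv v 2 < 1 → Lv v a (-n))
    (hb : ∀ v : HeightOneSpectrum (𝓞 K), fv v 2 < 1 → Lv v b (-n))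
    (hu0 : ∀ v : HeightOneSpectrum (𝓞 K), fv v 2 < 1 → fv v u0 = fv v 2 ^ (-(2 * N)))
    (hw0 : w0 ^ 2 = u0 ^ 3 + a * u0 + b) :
    ∃ C : ℝ, 0 ≤ C ∧ ∀ k : ℕ, ∃ u w : K, w ^ 2 = u ^ 3 + a * u + b ∧
      (∀ v : HeightOneSpectrum (𝓞 K), fv v 2 < 1 → fv v u = fv v 2 ^ (-(2 * (N + k)))) ∧
      hh u ≤ C * 4 ^ k := by
  obtain ⟨v0, hv0⟩ := exists_above_two (K := K)
  set A : K[X] := X ^ 4 + Polynomial.C (-(2 * a)) * X ^ 2 + Polynomial.C (-(8 * b)) * X +
    Polynomial.C (a ^ 2) with hA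
  set B : K[X] := Polynomial.C 4 * (X ^ 3 + Polynomial.C a * X + Polynomial.C b) with hB
  have hAd : A.natDegree ≤ 4 := by rw [hA]; compute_degree
  have hBd : B.natDegree ≤ 4 := by
    rw [hB]
    refine (natDegree_C_mul_le _ _).trans ?_
    compute_degree
    norm_num
  obtain ⟨C, hC⟩ := hh_ratio_le A B hAd hBd
  refine ⟨hh u0 + |C|, add_nonneg (hh_nonneg _) (abs_nonneg _), ?_⟩
  suffices H : ∀ k : ℕ, ∃ u w : K, w ^ 2 = u ^ 3 + a * u + b ∧
      (∀ v : HeightOneSpectrum (𝓞 K), fv v 2 < 1 → fv v u = fv v 2 ^ (-(2 * (N + k)))) ∧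
      hh u ≤ (hh u0 + |C|) * 4 ^ k - |C| by
    intro k
    obtain ⟨u, w, h1, h2, h3⟩ := H k
    exact ⟨u, w, h1, h2, h3.trans (by linarith [abs_nonneg C])⟩
  intro k
  induction k with
  | zero => exact ⟨u0, w0, hw0, by simpa using hu0, by simp⟩
  | succ k ih =>
    obtain ⟨u, w, h1, h2, h3⟩ := ih
    have hw : w ≠ 0 := by
      intro h0
      have h4 := w_size hv0 hn (by omega) (ha v0 hv0) (hb v0 hv0) (h2 v0 hv0) h1
      rw [h0, map_zero] at h4
      exact (zpow_pos (fv_two_pos v0) _).ne h4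
    have h2w : 2 * w ≠ 0 := mul_ne_zero two_ne_zero hw
    obtain ⟨μ, hμ⟩ : ∃ μ : K, 2 * w * μ = 3 * u ^ 2 + a :=
      ⟨(3 * u ^ 2 + a) / (2 * w), by field_simp⟩
    refine ⟨μ ^ 2 - 2 * u, μ * (u - (μ ^ 2 - 2 * u)) - w, dbl_identity h1 hμ rfl, ?_, ?_⟩
    · intro v hv
      have := u_size hv hn (m := N + k) (by omega) (ha v hv) (hb v hv) (h2 v hv) h1 hμ rfl
      rw [this]
      congr 1
      push_cast
      ring
    · have e1 : μ ^ 2 - 2 * u = A.eval u / B.eval u := by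
        have hBu : B.eval u = (2 * w) ^ 2 := by
          rw [hB]
          simp only [eval_mul, eval_add, eval_pow, eval_C, eval_X]
          rw [← h1]
          ring
        have hAu : A.eval u = u ^ 4 + -(2 * a) * u ^ 2 + -(8 * b) * u + a ^ 2 := by
          rw [hA]
          simp only [eval_mul, eval_add, eval_pow, eval_C, eval_X]
        rw [hBu, hAu, eq_div_iff (pow_ne_zero _ h2w)]
        have : (2 * w * μ) ^ 2 = (3 * u ^ 2 + a) ^ 2 := by rw [hμ]
        linear_combination this - 8 * u * h1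
      rw [e1]
      have h4 := hC u
      have h5 := le_abs_self C
      have h6 := abs_nonneg C
      push_cast at h4
      rw [pow_succ]
      linarith

/-- points close to a given point -/
theorem near_points {a b u0 w0 xA yA : K} {N n : ℤ} (hn : 0 ≤ n) (hN : 3 * n + 1 < N)
    (ha : ∀ v : HeightOneSpectrum (𝓞 K), fv v 2 < 1 → Lv v a (-n))
    (hb : ∀ v : HeightOneSpectrum (𝓞 K), fv v 2 < 1 → Lv v b (-n))
    (hx : ∀ v : HeightOneSpectrum (𝓞 K), fv v 2 < 1 → Lv v xA (-n))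
    (hy : ∀ v : HeightOneSpectrum (𝓞 K), fv v 2 < 1 → Lv v yA (-n))
    (hyi : ∀ v : HeightOneSpectrum (𝓞 K), fv v 2 < 1 → Lv v yA⁻¹ (-n))
    (hyA : yA ≠ 0) (hA : yA ^ 2 = xA ^ 3 + a * xA + b)
    (hu0 : ∀ v : HeightOneSpectrum (𝓞 K), fv v 2 < 1 → fv v u0 = fv v 2 ^ (-(2 * N)))
    (hw0 : w0 ^ 2 = u0 ^ 3 + a * u0 + b) :
    ∃ C : ℝ, 0 ≤ C ∧ ∀ k : ℕ, ∃ x y : K, y ^ 2 = x ^ 3 + a * x + b ∧ x - xA ≠ 0 ∧
      (∀ v : HeightOneSpectrum (𝓞 K), fv v 2 < 1 → Lv v (x - xA) k) ∧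
      k * Real.log 2 ≤ hh (x - xA) ∧ hh x ≤ C * 4 ^ k := by
  obtain ⟨v0, hv0⟩ := exists_above_two (K := K)
  obtain ⟨C, hC0, hC⟩ := seq_points hn (by omega) ha hb hu0 hw0
  set B : K[X] := X ^ 3 + Polynomial.C a * X + Polynomial.C b with hB
  have hBd : B.natDegree ≤ 3 := by
    rw [hB]
    compute_degree
  obtain ⟨D, hD⟩ := hh_eval_le B hBd
  refine ⟨6 * C + (|D| + 2 * hh yA + 3 * hh xA + 6 * Real.log 2), ?_, ?_⟩
  · have := Real.log_pos (by norm_num : (1 : ℝ) < 2)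
    have := hh_nonneg yA
    have := hh_nonneg xA
    positivity
  intro k
  obtain ⟨u, w, h1, h2, h3⟩ := hC k
  have hne : u - xA ≠ 0 := by
    intro h0
    have h4 : u = xA := sub_eq_zero.1 h0
    have h5 := h2 v0 hv0
    have h6 := Lv.lt hv0 (hx v0 hv0) (f := -(2 * (N + k))) (by omega)
    rw [← h4, h5] at h6
    exact lt_irrefl _ h6
  obtain ⟨l, hl⟩ : ∃ l : K, l * (u - xA) = w - yA := ⟨(w - yA) / (u - xA), by field_simp⟩
  refine ⟨l ^ 2 - xA - u, yA + l * (l ^ 2 - xA - u - xA), add_identity hA h1 hne hl rfl, ?_, ?_, ?_, ?_⟩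
  · exact (X_size hv0 hn (m := N + k) (by omega) (ha v0 hv0) (hb v0 hv0) (hx v0 hv0) (hy v0 hv0)
      (hyi v0 hv0) hyA (h2 v0 hv0) h1 hl rfl).1
  · intro v hv
    exact (X_size hv hn (m := N + k) (by omega) (ha v hv) (hb v hv) (hx v hv) (hy v hv)
      (hyi v hv) hyA (h2 v hv) h1 hl rfl).2.mono (by omega)
  · refine hh_two_pow_le ?_ fun v hv => ?_
    · exact (X_size hv0 hn (m := N + k) (by omega) (ha v0 hv0) (hb v0 hv0) (hx v0 hv0) (hy v0 hv0)
        (hyi v0 hv0) hyA (h2 v0 hv0) h1 hl rfl).1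
    · have := (X_size hv hn (m := N + k) (by omega) (ha v hv) (hb v hv) (hx v hv) (hy v hv)
        (hyi v hv) hyA (h2 v hv) h1 hl rfl).2.mono (f := (k : ℤ)) (by omega)
      unfold Lv at this
      rwa [zpow_natCast] at this
  · have h4 : 2 * hh w ≤ 3 * hh u + D := by
      have h5 := hD u
      have h6 : B.eval u = w ^ 2 := by
        rw [hB, h1]
        simp only [eval_mul, eval_add, eval_pow, eval_C, eval_X]
      rw [h6, hh_pow] at h5
      push_cast at h5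
      exact h5
    have hl' : l = (w - yA) / (u - xA) := by rw [eq_div_iff hne]; exact hl
    have h7 : hh l ≤ hh w + hh yA + Real.log 2 + (hh u + hh xA + Real.log 2) := by
      rw [hl']
      exact (hh_div_le _ _).trans (add_le_add (hh_sub_le _ _) (hh_sub_le _ _))
    have h8 : hh (l ^ 2 - xA - u) ≤ 2 * hh l + hh xA + Real.log 2 + hh u + Real.log 2 := by
      refine (hh_sub_le _ _).trans ?_
      have := hh_sub_le (l ^ 2) xA
      rw [hh_pow] at this
      push_cast at this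
      linarith
    have h9 : (1 : ℝ) ≤ 4 ^ k := one_le_pow₀ (by norm_num)
    have h10 : 0 ≤ |D| + 2 * hh yA + 3 * hh xA + 6 * Real.log 2 := by
      have := Real.log_pos (by norm_num : (1 : ℝ) < 2)
      have := hh_nonneg yA
      have := hh_nonneg xA
      positivity
    have h11 := mul_le_mul_of_nonneg_left h9 h10
    have h12 := le_abs_self D
    have h13 := hh_nonneg u
    rw [add_mul]
    linarith

end Pool.Agent.H10VJ
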