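import Mathlib
import Pool.Agent.H10VJ.Pts

set_option autoImplicit false

/-!
Small discriminants over a field containing the branch points.
-/

namespace Pool.Agent.H10VJ
open NumberField IsDedekindDomain Height Module Pool.Agent.W231.V Pool.Agent.Y733.VR Polynomial
  IntermediateField

variable {K : Type} [Field K] [NumberField K]

lemma Lv_poly (P : K[X]) (n : ℕ) : ∃ N : ℕ, ∀ v : HeightOneSpectrum (𝓞 K), fv v 2 < 1 → ∀ s : K,
    Lv v s (-n) → Lv v (P.eval s) (-N) := by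
  induction P using Polynomial.induction_on' with
  | add P Q hP hQ =>
    obtain ⟨N1, h1⟩ := hP
    obtain ⟨N2, h2⟩ := hQ
    refine ⟨max N1 N2, fun v hv s hs => ?_⟩
    rw [eval_add]
    exact ((h1 v hv s hs).mono (by push_cast; omega)).add ((h2 v hv s hs).mono (by push_cast; omega))
  | monomial i c =>
    obtain ⟨N, hN⟩ := exists_twoBdd c
    refine ⟨N + i * n, fun v hv s hs => ?_⟩
    rw [eval_monomial]
    have hc : Lv v c (-N) := by
      have := hN.fv hv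
      unfold Lv
      rw [zpow_neg, zpow_natCast]
      rwa [← one_div, le_div_iff₀ (pow_pos (fv_two_pos v) _)]
    exact (hc.mul (hs.pow i)).mono (by push_cast; ring_nf; exact le_rfl)

lemma TwoBdd.Lv {x : K} {N : ℕ} (h : TwoBdd x N) {v : HeightOneSpectrum (𝓞 K)}
    (hv : Pool.Agent.W231.V.fv v (2 : K) < 1) : Pool.Agent.H10VJ.Lv v x (-N) := by
  have := h.fv hv
  unfold Pool.Agent.H10VJ.Lv
  rw [zpow_neg, zpow_natCast]
  rwa [← one_div, le_div_iff₀ (pow_pos (fv_two_pos v) _)]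

/-- a nonzero polynomial does not vanish at points of large height -/
lemma eval_ne_of_hh {Q : K[X]} (hQ : Q ≠ 0) : ∃ B : ℝ, ∀ t : K, B < hh t → Q.eval t ≠ 0 := by
  classical
  refine ⟨∑ r ∈ Q.roots.toFinset, hh r, fun t ht h0 => ?_⟩
  have h1 : t ∈ Q.roots.toFinset := by
    rw [Multiset.mem_toFinset, mem_roots hQ]
    exact h0
  have h2 := Finset.single_le_sum (f := fun r => hh r) (fun r _ => hh_nonneg r) h1
  linarith

lemma hh_bdd_one {x c : K} : hh x ≤ hh (x - c) + hh c + Real.log 2 := by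
  have := hh_add_le (x - c) c
  rwa [sub_add_cancel] at this

theorem mlevel {f R Q : K[X]} {h : ℕ} {α0 δ1 δ2 δ3 δ4 a b e' xA yA w0 : K} {n N : ℕ}
    (h1 : δ1 ≠ 0) (h2 : δ2 ≠ 0) (h3 : δ3 ≠ 0) (h4 : δ4 ≠ 0) (hQ : Q ≠ 0) (hR : R ≠ 0)
    (hf : f = (X - C α0) * (X - C (α0 + δ1)) * (X - C (α0 + δ2)) * (X - C (α0 + δ3)) *
      (X - C (α0 + δ4)) * R) (hRd : R.natDegree + 1 ≤ 2 * h)
    (he' : e' = (δ1⁻¹ + δ2⁻¹ + δ3⁻¹) / 3)
    (ha : a = (δ1⁻¹ - e') * (δ2⁻¹ - e') + (δ1⁻¹ - e') * (δ3⁻¹ - e') + (δ2⁻¹ - e') * (δ3⁻¹ - e'))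
    (hb : b = -((δ1⁻¹ - e') * (δ2⁻¹ - e') * (δ3⁻¹ - e')))
    (hxA : xA = δ4⁻¹ - e') (hyA0 : yA ≠ 0) (hyA : yA ^ 2 = xA ^ 3 + a * xA + b)
    (hna : TwoBdd a n) (hnb : TwoBdd b n) (hnx : TwoBdd xA n) (hny : TwoBdd yA n)
    (hnyi : TwoBdd yA⁻¹ n) (hN : 3 * n + 1 < N)
    (hw0 : w0 ^ 2 = ((2 ^ N)⁻¹ ^ 2) ^ 3 + a * (2 ^ N)⁻¹ ^ 2 + b) :
    ∃ C1 : ℝ, ∃ k0 : ℕ, ∀ k : ℕ, k0 ≤ k → ∃ t : K, Q.eval t ≠ 0 ∧
      k * Real.log 2 - C1 ≤ hh t ∧ hh t ≤ C1 * 4 ^ k ∧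
      ∃ (L : Type) (_ : Field L) (_ : NumberField L) (_ : Algebra K L) (y : L),
        y ^ 2 = algebraMap K L (f.eval t) ∧ finrank K L ≤ 2 ∧
        ld L ≤ ld K + h * hh t - k * Real.log 2 / 2 + C1 := by
  have hd : R.natDegree + 1 ≤ 2 * h := hRd
  obtain ⟨d, hdh⟩ : ∃ d : ℕ, d + 1 = 2 * h := ⟨2 * h - 1, by omega⟩
  have hRd' : R.natDegree ≤ d := by omega
  -- the reflected polynomial
  set Rs : K[X] := reflect d (R.comp (X + C α0)) with hRs
  have hcompd : (R.comp (X + C α0)).natDegree ≤ d := by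
    rw [natDegree_comp, natDegree_X_add_C, mul_one]
    exact hRd'
  have hRseval : ∀ s : K, s ≠ 0 → Rs.eval s = s ^ d * R.eval (α0 + s⁻¹) := by
    intro s hs
    let _ : Invertible s⁻¹ := invertibleOfNonzero (inv_ne_zero hs)
    have e1 := eval₂_reflect_mul_pow (RingHom.id K) s⁻¹ d (R.comp (X + C α0)) hcompd
    rw [invOf_eq_inv, inv_inv, ← hRs] at e1
    change Rs.eval s * s⁻¹ ^ d = (R.comp (X + C α0)).eval s⁻¹ at e1
    rw [eval_comp, eval_add, eval_X, eval_C] at e1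
    rw [add_comm α0, ← e1]
    have e2 : s⁻¹ ^ d * s ^ d = 1 := by rw [← mul_pow, inv_mul_cancel₀ hs, one_pow]
    linear_combination (-(Rs.eval s)) * e2
  have hRsd : Rs.natDegree ≤ d := by
    exact natDegree_reflect_le.trans (max_le le_rfl hcompd)
  set κ : K := -(δ1 * δ2 * δ3) with hκ
  have hκ0 : κ ≠ 0 := neg_ne_zero.2 (mul_ne_zero (mul_ne_zero h1 h2) h3)
  set G : K[X] := C κ * ((1 - C δ4 * X) * Rs) with hG
  have hGd : G.natDegree ≤ 2 * h := by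
    rw [hG]
    refine (natDegree_C_mul_le _ _).trans (natDegree_mul_le.trans ?_)
    have : (1 - C δ4 * X : K[X]).natDegree ≤ 1 := by compute_degree
    omega
  -- the value of `f`
  have hcub : ∀ x s : K, s = x + e' → (1 - δ1 * s) * (1 - δ2 * s) * (1 - δ3 * s) =
      κ * (x ^ 3 + a * x + b) := by
    intro x s hs
    have e1 : δ1 * δ1⁻¹ = 1 := mul_inv_cancel₀ h1
    have e2 : δ2 * δ2⁻¹ = 1 := mul_inv_cancel₀ h2
    have e3 : δ3 * δ3⁻¹ = 1 := mul_inv_cancel₀ h3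
    have f1 : 1 - δ1 * s = -(δ1 * (x - (δ1⁻¹ - e'))) := by
      rw [hs]; linear_combination -e1
    have f2 : 1 - δ2 * s = -(δ2 * (x - (δ2⁻¹ - e'))) := by
      rw [hs]; linear_combination -e2
    have f3 : 1 - δ3 * s = -(δ3 * (x - (δ3⁻¹ - e'))) := by
      rw [hs]; linear_combination -e3
    have f4 : (δ1⁻¹ - e') + (δ2⁻¹ - e') + (δ3⁻¹ - e') = 0 := by
      rw [he']; ring
    rw [f1, f2, f3, hκ, ha, hb]
    linear_combination (δ1 * δ2 * δ3) * x ^ 2 * f4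
  have hGeval : ∀ s : K, G.eval s = κ * ((1 - δ4 * s) * Rs.eval s) := by
    intro s
    rw [hG]
    simp only [eval_mul, eval_sub, eval_C, eval_X, eval_one]
  have hfeval : ∀ x y s : K, s = x + e' → s ≠ 0 → y ^ 2 = x ^ 3 + a * x + b →
      f.eval (α0 + s⁻¹) = G.eval s * (y / s ^ (h + 2)) ^ 2 := by
    intro x y s hs hs0 hy
    rw [hGeval, hRseval s hs0, hf]
    simp only [eval_mul, eval_sub, eval_C, eval_X]
    have hsp : (s ^ (h + 2)) ^ 2 = s ^ d * s ^ 5 := by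
      rw [← pow_mul, ← pow_add]
      congr 1
      omega
    rw [div_pow, hsp, hy]
    have e1 := hcub x s hs
    have g0 : α0 + s⁻¹ - α0 = s⁻¹ := by ring
    have g1 : ∀ δ : K, α0 + s⁻¹ - (α0 + δ) = (1 - δ * s) / s := by
      intro δ; field_simp; ring
    rw [g0, g1, g1, g1, g1]
    have hsd : s ^ d ≠ 0 := pow_ne_zero _ hs0
    generalize R.eval (α0 + s⁻¹) = Rv
    field_simp
    linear_combination (1 - δ4 * s) * Rv * e1
  -- size at two
  obtain ⟨ne, hne⟩ := exists_twoBdd e'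
  obtain ⟨nκ, hnκ⟩ := exists_twoBdd (κ * δ4)
  obtain ⟨NR, hNR⟩ := Lv_poly Rs (max n ne)
  obtain ⟨Ccore, hcore⟩ := core_disc G h hGd
  -- points
  have hu0 : ∀ v : HeightOneSpectrum (𝓞 K), fv v 2 < 1 →
      fv v ((2 ^ N)⁻¹ ^ 2 : K) = fv v 2 ^ (-(2 * (N : ℤ))) := by
    intro v _
    rw [map_pow, map_inv₀, map_pow, zpow_neg, inv_pow, ← pow_mul]
    congr 1
    rw [← zpow_natCast]
    congr 1
    push_cast; ring
  obtain ⟨Cp, hCp0, hpts⟩ := near_points (K := K) (a := a) (b := b) (n := n) (N := N)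
    (by omega) (by omega) (fun v hv => hna.Lv hv) (fun v hv => hnb.Lv hv)
    (fun v hv => hnx.Lv hv) (fun v hv => hny.Lv hv) (fun v hv => hnyi.Lv hv) hyA0 hyA hu0 hw0
  obtain ⟨B1, hB1⟩ := eval_ne_of_hh (mul_ne_zero hQ hR)
  have hlog2 : 0 < Real.log 2 := Real.log_pos (by norm_num)
  -- constants
  obtain ⟨E, hE⟩ : ∃ E : ℝ, E = hh α0 + hh e' + hh xA + 3 * Real.log 2 := ⟨_, rfl⟩
  have hE0 : 0 ≤ E := by
    rw [hE]
    have := hh_nonneg α0
    have := hh_nonneg e'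
    have := hh_nonneg xA
    positivity
  obtain ⟨N3, hN3⟩ : ∃ N3 : ℕ, N3 = nκ + NR := ⟨_, rfl⟩
  refine ⟨E + Cp + |Ccore| + h * E + (N3 + 1) * Real.log 2,
    ⌈(B1 + E) / Real.log 2⌉₊ + 1 + N3 + ⌈E / Real.log 2⌉₊ + 1, ?_⟩
  intro k hk
  obtain ⟨x, y, hy, hxne, hxv, hxl, hxu⟩ := hpts k
  obtain ⟨s, hs⟩ : ∃ s : K, s = x + e' := ⟨_, rfl⟩
  -- heights
  have q1 : k * Real.log 2 ≤ hh s + (hh e' + hh xA + 2 * Real.log 2) := by
    have e1 : x - xA = s - e' - xA := by rw [hs]; ring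
    have e2 := hh_sub_le (s - e') xA
    have e3 := hh_sub_le s e'
    rw [← e1] at e2
    linarith
  have q2 : hh s ≤ hh x + hh e' + Real.log 2 := by rw [hs]; exact hh_add_le _ _
  have hkR : (⌈(B1 + E) / Real.log 2⌉₊ + 1 + N3 + ⌈E / Real.log 2⌉₊ + 1 : ℝ) ≤ k := by
    exact_mod_cast hk
  have hc1 := Nat.le_ceil ((B1 + E) / Real.log 2)
  have hc2 := Nat.le_ceil (E / Real.log 2)
  rw [div_le_iff₀ hlog2] at hc1 hc2
  have hN3' : (0 : ℝ) ≤ N3 := Nat.cast_nonneg _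
  have hs0 : s ≠ 0 := by
    intro h0
    have e1 : hh s = 0 := by
      rw [h0]
      unfold hh
      rw [logHeight₁_zero, zero_div]
    have e2 : (⌈E / Real.log 2⌉₊ + 1 : ℝ) ≤ k := by
      have : (0 : ℝ) ≤ ⌈(B1 + E) / Real.log 2⌉₊ := Nat.cast_nonneg _
      linarith
    have e3 := mul_le_mul_of_nonneg_right e2 hlog2.le
    have := hh_nonneg α0
    linarith
  have q3 : hh s ≤ hh (α0 + s⁻¹) + hh α0 + Real.log 2 := by
    have e1 := hh_sub_le (α0 + s⁻¹) α0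
    rw [add_sub_cancel_left, hh_inv] at e1
    exact e1
  have q4 : hh (α0 + s⁻¹) ≤ hh α0 + hh s + Real.log 2 := by
    have e1 := hh_add_le α0 s⁻¹
    rwa [hh_inv] at e1
  have q5 : k * Real.log 2 - E ≤ hh (α0 + s⁻¹) := by linarith
  have hQR : (Q * R).eval (α0 + s⁻¹) ≠ 0 := by
    apply hB1
    have e2 : (⌈(B1 + E) / Real.log 2⌉₊ + 1 : ℝ) ≤ k := by
      have : (0 : ℝ) ≤ ⌈E / Real.log 2⌉₊ := Nat.cast_nonneg _
      linarith
    have e3 := mul_le_mul_of_nonneg_right e2 hlog2.le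
    linarith
  rw [eval_mul] at hQR
  have h4k : (1 : ℝ) ≤ 4 ^ k := one_le_pow₀ (by norm_num)
  have hrest : 0 ≤ |Ccore| + h * E + (N3 + 1) * Real.log 2 := by positivity
  refine ⟨α0 + s⁻¹, left_ne_zero_of_mul hQR, by linarith, ?_, ?_⟩
  · have e1 := mul_le_mul_of_nonneg_left h4k hE0
    have e2 := mul_le_mul_of_nonneg_left h4k hrest
    have := hh_nonneg xA
    linarith
  -- the discriminant
  have hGs : G.eval s ≠ 0 := by
    rw [hGeval, hRseval s hs0]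
    refine mul_ne_zero hκ0 (mul_ne_zero ?_ (mul_ne_zero (pow_ne_zero _ hs0)
      (right_ne_zero_of_mul hQR)))
    intro h0
    apply hxne
    have e4 : δ4 * δ4⁻¹ = 1 := mul_inv_cancel₀ h4
    apply mul_left_cancel₀ h4
    rw [mul_zero, hxA]
    rw [hs] at h0
    linear_combination -h0 - e4
  have hGv : ∀ v : HeightOneSpectrum (𝓞 K), fv v 2 < 1 →
      fv v (G.eval s) ≤ fv v 2 ^ (2 * ((k - N3) / 2)) := by
    intro v hv
    have e4 : δ4 * δ4⁻¹ = 1 := mul_inv_cancel₀ h4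
    have e1 : G.eval s = -(κ * δ4 * (x - xA) * Rs.eval s) := by
      rw [hGeval, hxA]
      rw [hs]
      linear_combination (-κ * Rs.eval (x + e')) * e4
    have l1 : Lv v s (-(max n ne : ℕ)) := by
      have l0 : Lv v x (-(max n ne : ℕ)) := by
        have := ((hxv v hv).mono (f := (-(max n ne : ℕ) : ℤ)) (by omega)).add
          ((hnx.Lv hv).mono (f := (-(max n ne : ℕ) : ℤ)) (by omega))
        rwa [sub_add_cancel] at this
      rw [hs]
      exact l0.add ((hne.Lv hv).mono (by omega))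
    have l2 := hNR v hv s (by exact_mod_cast l1)
    have l3 := (((hnκ.Lv hv).mul (hxv v hv)).mul l2).neg
    rw [← e1] at l3
    have hkN : N3 ≤ k := by omega
    have l4 := l3.mono (f := ((2 * ((k - N3) / 2) : ℕ) : ℤ)) (by omega)
    unfold Lv at l4
    rwa [zpow_natCast] at l4
  obtain ⟨L, fL, nL, aL, z, ρ, hρ, hz, htop, hfin, hld⟩ := hcore s ((k - N3) / 2) hGs hGv
  refine ⟨L, fL, nL, aL, z * algebraMap K L (y / s ^ (h + 2) / ρ), ?_, hfin, ?_⟩
  · rw [mul_pow, hz, ← map_pow, ← map_mul, hfeval x y s hs hs0 hy]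
    congr 1
    field_simp
  · have hj : (k : ℝ) - N3 - 1 ≤ 2 * (((k - N3) / 2 : ℕ) : ℝ) := by
      have hkN : N3 ≤ k := by omega
      have : k ≤ 2 * ((k - N3) / 2) + N3 + 1 := by omega
      have : (k : ℝ) ≤ 2 * (((k - N3) / 2 : ℕ) : ℝ) + N3 + 1 := by exact_mod_cast this
      linarith
    have hj2 := mul_le_mul_of_nonneg_right hj hlog2.le
    have hsE : hh s ≤ hh (α0 + s⁻¹) + E := by
      have := hh_nonneg e'
      have := hh_nonneg xA
      linarith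
    have hs2 := mul_le_mul_of_nonneg_left hsE (Nat.cast_nonneg h : (0 : ℝ) ≤ h)
    have := le_abs_self Ccore
    have := mul_nonneg hN3' hlog2.le
    linarith

end Pool.Agent.H10VJ
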