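import Mathlib
import Pool.Agent.H10VJ.Lev

set_option autoImplicit false

/-!
Existence of a number field containing the branch points and the auxiliary points.
-/

namespace Pool.Agent.H10VJ
open NumberField IsDedekindDomain Height Module Pool.Agent.W231.V Pool.Agent.Y733.VR Polynomial
  IntermediateField

lemma five_roots {F : Type} [Field F] {f : F[X]} (hs : f.Splits) (hsep : f.Separable)
    (h5 : 5 ≤ f.natDegree) : ∃ (a0 a1 a2 a3 a4 : F) (R : F[X]),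
      a1 ≠ a0 ∧ a2 ≠ a0 ∧ a3 ≠ a0 ∧ a4 ≠ a0 ∧ a4 ≠ a1 ∧ a4 ≠ a2 ∧ a4 ≠ a3 ∧ R ≠ 0 ∧
      R.natDegree + 5 = f.natDegree ∧
      f = (X - C a0) * (X - C a1) * (X - C a2) * (X - C a3) * (X - C a4) * R := by
  have hf0 : f ≠ 0 := hsep.ne_zero
  have hnd := nodup_roots hsep
  have hcard := hs.natDegree_eq_card_roots
  have hprod := hs.eq_prod_roots
  have step : ∀ (n : ℕ) (s : Multiset F), n + 1 ≤ s.card →
      ∃ (a : F) (t : Multiset F), s = a ::ₘ t ∧ n ≤ t.card := by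
    intro n s hs
    obtain ⟨a, ha⟩ := Multiset.card_pos_iff_exists_mem.1 (show 0 < s.card by omega)
    obtain ⟨t, rfl⟩ := Multiset.exists_cons_of_mem ha
    exact ⟨a, t, rfl, by rw [Multiset.card_cons] at hs; omega⟩
  obtain ⟨a0, t0, h0, c0⟩ := step 4 f.roots (by omega)
  obtain ⟨a1, t1, h1, c1⟩ := step 3 t0 (by omega)
  obtain ⟨a2, t2, h2, c2⟩ := step 2 t1 (by omega)
  obtain ⟨a3, t3, h3, c3⟩ := step 1 t2 (by omega)
  obtain ⟨a4, t4, h4, c4⟩ := step 0 t3 (by omega)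
  rw [h0, h1, h2, h3, h4] at hnd hcard hprod
  simp only [Multiset.nodup_cons, Multiset.mem_cons, not_or] at hnd
  obtain ⟨⟨n01, n02, n03, n04, -⟩, ⟨n12, n13, n14, -⟩, ⟨n23, n24, -⟩, ⟨n34, -⟩, -⟩ := hnd
  refine ⟨a0, a1, a2, a3, a4, C f.leadingCoeff * (Multiset.map (fun x => X - C x) t4).prod,
    Ne.symm n01, Ne.symm n02, Ne.symm n03, Ne.symm n04, Ne.symm n14, Ne.symm n24, Ne.symm n34,
    ?_, ?_, ?_⟩
  · refine mul_ne_zero (C_ne_zero.2 (leadingCoeff_ne_zero.2 hf0)) ?_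
    exact (monic_multiset_prod_of_monic _ _ fun a _ => monic_X_sub_C a).ne_zero
  · rw [natDegree_C_mul (leadingCoeff_ne_zero.2 hf0), natDegree_multiset_prod_X_sub_C_eq_card, hcard]
    simp only [Multiset.card_cons]
  · conv_lhs => rw [hprod]
    simp only [Multiset.map_cons, Multiset.prod_cons]
    ring

lemma TwoBdd.map {F E : Type} [Field F] [Field E] (φ : F →+* E) {x : F} {N : ℕ}
    (h : TwoBdd x N) : TwoBdd (φ x) N := by
  obtain ⟨D, hD, hi⟩ := h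
  refine ⟨D, hD, ?_⟩
  have h1 := hi.map φ.toIntAlgHom
  have h2 : φ.toIntAlgHom ((D : F) * 2 ^ N * x) = (D : E) * 2 ^ N * φ x := by
    change φ ((D : F) * 2 ^ N * x) = (D : E) * 2 ^ N * φ x
    rw [map_mul, map_mul, map_pow, map_natCast, _root_.map_ofNat]
  rwa [h2] at h1

/-- points with small discriminant over some number field -/
theorem exists_level {K : Type} [Field K] [NumberField K] {f b : K[X]} (hf : f.Separable)
    (h5 : 5 ≤ f.natDegree) (hb : b ≠ 0) :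
    ∃ (M : Type) (_ : Field M) (_ : NumberField M) (_ : Algebra K M) (C1 : ℝ) (k0 : ℕ),
      ∀ k : ℕ, k0 ≤ k → ∃ t : M, (b.map (algebraMap K M)).eval t ≠ 0 ∧
        k * Real.log 2 - C1 ≤ hh t ∧ hh t ≤ C1 * 4 ^ k ∧
        ∃ (L : Type) (_ : Field L) (_ : NumberField L) (_ : Algebra M L) (y : L),
          y ^ 2 = algebraMap M L ((f.map (algebraMap K M)).eval t) ∧ finrank M L ≤ 2 ∧
          ld L ≤ ld M + ((f.natDegree - 1) / 2 - 1 : ℕ) * hh t - k * Real.log 2 / 2 + C1 := by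
  let M0 := f.SplittingField
  have nM0 : NumberField M0 := NumberField.of_module_finite K M0
  have hsp : (f.map (algebraMap K M0)).Splits := SplittingField.splits f
  have hinj : Function.Injective (algebraMap K M0) := (algebraMap K M0).injective
  have hdeg : (f.map (algebraMap K M0)).natDegree = f.natDegree :=
    natDegree_map_eq_of_injective hinj f
  obtain ⟨a0, a1, a2, a3, a4, R, h10, h20, h30, h40, h41, h42, h43, hR, hRd, hfac⟩ :=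
    five_roots hsp (hf.map) (by rw [hdeg]; exact h5)
  obtain ⟨δ1, hδ1⟩ : ∃ δ, δ = a1 - a0 := ⟨_, rfl⟩
  obtain ⟨δ2, hδ2⟩ : ∃ δ, δ = a2 - a0 := ⟨_, rfl⟩
  obtain ⟨δ3, hδ3⟩ : ∃ δ, δ = a3 - a0 := ⟨_, rfl⟩
  obtain ⟨δ4, hδ4⟩ : ∃ δ, δ = a4 - a0 := ⟨_, rfl⟩
  have d1 : δ1 ≠ 0 := by rw [hδ1]; exact sub_ne_zero.2 h10
  have d2 : δ2 ≠ 0 := by rw [hδ2]; exact sub_ne_zero.2 h20
  have d3 : δ3 ≠ 0 := by rw [hδ3]; exact sub_ne_zero.2 h30
  have d4 : δ4 ≠ 0 := by rw [hδ4]; exact sub_ne_zero.2 h40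
  have d41 : δ4⁻¹ - δ1⁻¹ ≠ 0 := by
    rw [sub_ne_zero, Ne, inv_inj, hδ4, hδ1, sub_left_inj]; exact h41
  have d42 : δ4⁻¹ - δ2⁻¹ ≠ 0 := by
    rw [sub_ne_zero, Ne, inv_inj, hδ4, hδ2, sub_left_inj]; exact h42
  have d43 : δ4⁻¹ - δ3⁻¹ ≠ 0 := by
    rw [sub_ne_zero, Ne, inv_inj, hδ4, hδ3, sub_left_inj]; exact h43
  have e1 : a1 = a0 + δ1 := by rw [hδ1]; ring
  have e2 : a2 = a0 + δ2 := by rw [hδ2]; ring
  have e3 : a3 = a0 + δ3 := by rw [hδ3]; ring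
  have e4 : a4 = a0 + δ4 := by rw [hδ4]; ring
  rw [e1, e2, e3, e4] at hfac
  obtain ⟨e', he'⟩ : ∃ e', e' = (δ1⁻¹ + δ2⁻¹ + δ3⁻¹) / 3 := ⟨_, rfl⟩
  obtain ⟨a, ha⟩ : ∃ a, a = (δ1⁻¹ - e') * (δ2⁻¹ - e') + (δ1⁻¹ - e') * (δ3⁻¹ - e') +
    (δ2⁻¹ - e') * (δ3⁻¹ - e') := ⟨_, rfl⟩
  obtain ⟨β, hβ⟩ : ∃ β, β = -((δ1⁻¹ - e') * (δ2⁻¹ - e') * (δ3⁻¹ - e')) := ⟨_, rfl⟩
  obtain ⟨xA, hxA⟩ : ∃ xA, xA = δ4⁻¹ - e' := ⟨_, rfl⟩
  have hcub : xA ^ 3 + a * xA + β = (δ4⁻¹ - δ1⁻¹) * (δ4⁻¹ - δ2⁻¹) * (δ4⁻¹ - δ3⁻¹) := by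
    rw [ha, hβ, hxA, he']
    ring
  have hcub0 : xA ^ 3 + a * xA + β ≠ 0 := by
    rw [hcub]
    exact mul_ne_zero (mul_ne_zero d41 d42) d43
  -- first square root
  obtain ⟨σ⟩ : Nonempty (M0 →+* ℂ) := inferInstance
  obtain ⟨z1, hz1⟩ := IsAlgClosed.exists_pow_nat_eq (σ (xA ^ 3 + a * xA + β)) two_pos
  obtain ⟨M1, F1, N1, A1, τ, yA, -, -, hyA, -, -⟩ := ext_sqrt M0 σ _ z1 hz1
  have hyA0 : yA ≠ 0 := by
    rintro rfl
    apply hcub0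
    apply (algebraMap M0 M1).injective
    rw [← hyA, map_zero]
    ring
  obtain ⟨n1, hn1⟩ := exists_twoBdd (algebraMap M0 M1 a)
  obtain ⟨n2, hn2⟩ := exists_twoBdd (algebraMap M0 M1 β)
  obtain ⟨n3, hn3⟩ := exists_twoBdd (algebraMap M0 M1 xA)
  obtain ⟨n4, hn4⟩ := exists_twoBdd yA
  obtain ⟨n5, hn5⟩ := exists_twoBdd yA⁻¹
  obtain ⟨n, hn⟩ : ∃ n, n = n1 + n2 + n3 + n4 + n5 := ⟨_, rfl⟩
  obtain ⟨N, hN⟩ : ∃ N, N = 3 * n + 2 := ⟨_, rfl⟩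
  -- second square root
  obtain ⟨z2, hz2⟩ := IsAlgClosed.exists_pow_nat_eq
    (τ (((2 ^ N)⁻¹ ^ 2) ^ 3 + algebraMap M0 M1 a * (2 ^ N)⁻¹ ^ 2 + algebraMap M0 M1 β)) two_pos
  obtain ⟨M2, F2, N2, A2, -, w0, -, -, hw0, -, -⟩ := ext_sqrt M1 τ _ z2 hz2
  obtain ⟨φ, hφ⟩ : ∃ φ : M0 →+* M2, φ = (algebraMap M1 M2).comp (algebraMap M0 M1) := ⟨_, rfl⟩
  have hφinj : Function.Injective φ := φ.injective
  let A3 : Algebra K M2 := (φ.comp (algebraMap K M0)).toAlgebra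
  have hmap : ∀ p : K[X], p.map (algebraMap K M2) = (p.map (algebraMap K M0)).map φ := by
    intro p
    rw [Polynomial.map_map]
    rfl
  have hfac2 : f.map (algebraMap K M2) = (X - C (φ a0)) * (X - C (φ a0 + φ δ1)) *
      (X - C (φ a0 + φ δ2)) * (X - C (φ a0 + φ δ3)) * (X - C (φ a0 + φ δ4)) * R.map φ := by
    rw [hmap, hfac]
    simp
  have hφ' : ∀ x, φ x = algebraMap M1 M2 (algebraMap M0 M1 x) := by
    intro x
    rw [hφ]; rfl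
  obtain ⟨C1, k0, hk⟩ := mlevel (K := M2) (f := f.map (algebraMap K M2)) (R := R.map φ)
    (Q := b.map (algebraMap K M2)) (h := (f.natDegree - 1) / 2 - 1) (α0 := φ a0) (δ1 := φ δ1)
    (δ2 := φ δ2) (δ3 := φ δ3) (δ4 := φ δ4) (a := φ a) (b := φ β) (e' := φ e') (xA := φ xA)
    (yA := algebraMap M1 M2 yA) (w0 := w0) (n := n) (N := N)
    ((_root_.map_ne_zero φ).2 d1) ((_root_.map_ne_zero φ).2 d2) ((_root_.map_ne_zero φ).2 d3) ((_root_.map_ne_zero φ).2 d4)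
    ((Polynomial.map_ne_zero_iff (algebraMap K M2).injective).2 hb)
    ((Polynomial.map_ne_zero_iff hφinj).2 hR) hfac2
    (by
      rw [natDegree_map_eq_of_injective hφinj]
      rw [hdeg] at hRd
      omega)
    (by rw [he']; simp [_root_.map_ofNat]) (by rw [ha]; simp) (by rw [hβ]; simp) (by rw [hxA]; simp)
    ((_root_.map_ne_zero _).2 hyA0)
    (by
      rw [← map_pow, hyA]
      simp only [hφ', ← map_pow, ← map_mul, ← map_add])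
    (by rw [hφ']; exact (hn1.mono (by omega)).map _)
    (by rw [hφ']; exact (hn2.mono (by omega)).map _)
    (by rw [hφ']; exact (hn3.mono (by omega)).map _)
    ((hn4.mono (by omega)).map _)
    (by rw [← map_inv₀]; exact (hn5.mono (by omega)).map _)
    (by omega)
    (by
      rw [hw0]
      simp [hφ', _root_.map_ofNat])
  exact ⟨M2, F2, N2, A3, C1, k0, hk⟩

end Pool.Agent.H10VJ
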